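import Pool.Agent.Lib.MP_9f84a9_co.F.StmF1

set_option autoImplicit false

namespace Pool.Agent.Lib.MP_9f84a9_co

open Finset

theorem F1_cls_sum {α : Type*} (f g : α → ℕ) : ∀ (S : List α), (∀ q ∈ S, f q ≤ g q) →
    (S.map g).sum ≤ (S.map f).sum → ∀ q ∈ S, f q = g q
  | [], _, _ => by simp
  | a :: S, h, hs => by
    have h1 : f a ≤ g a := h a List.mem_cons_self
    have h2 : (S.map f).sum ≤ (S.map g).sum :=
      List.sum_le_sum fun q hq => h q (List.mem_cons_of_mem _ hq)
    simp only [List.map_cons, List.sum_cons] at hs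
    intro q hq
    rcases List.mem_cons.mp hq with rfl | hq
    · omega
    · exact F1_cls_sum f g S (fun q hq => h q (List.mem_cons_of_mem _ hq)) (by omega) q hq

theorem t_Fcls (hstar : S_star) (hpm : S_Fpm) : S_Fcls := by
  intro N Cl P S hD q hq
  obtain ⟨-, -, -, -, hlen⟩ := hpm
  have hne : Cl.Nonempty := ⟨q.lab q.root, (hD.ok q hq).labs _⟩
  have h1 := hstar N Cl S (fun q hq v => (hD.ok q hq).labs v) hD.conn hne
  have h2 := hD.cnt
  have hle : ∀ q ∈ S, (q.lv.map q.lab).toFinset.card - 1 ≤ q.lv.length - 1 := by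
    intro q _
    have := List.toFinset_card_le (q.lv.map q.lab)
    rw [List.length_map] at this
    omega
  have heq := F1_cls_sum (fun q : Piece N => (q.lv.map q.lab).toFinset.card - 1)
    (fun q => q.lv.length - 1) S hle (by omega) q hq
  have hl : 2 ≤ q.lv.length := by
    unfold Piece.lv
    rw [List.length_append]
    have := hlen N q.T.1
    have := hlen N q.T.2
    omega
  have hc := List.toFinset_card_le (q.lv.map q.lab)
  rw [List.length_map] at hc
  have hcc : (q.lv.map q.lab).toFinset.card = (q.lv.map q.lab).length := by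
    rw [List.length_map]
    omega
  have : Multiset.toFinset (↑(q.lv.map q.lab) : Multiset ℕ) = (q.lv.map q.lab).toFinset := rfl
  have hn := (Multiset.toFinset_card_eq_card_iff_nodup (m := (↑(q.lv.map q.lab) : Multiset ℕ))).mp
    (by rw [this]; exact hcc)
  exact Multiset.coe_nodup.mp hn

end Pool.Agent.Lib.MP_9f84a9_co
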