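import Pool.Agent.Lib.MP_9f84a9_co.F.StmF1

/-!
# MP_9f84a9_co, piece F1 leaf: leaf edges are positive
-/

set_option autoImplicit false

namespace Pool.Agent.Lib.MP_9f84a9_co

open Finset

private theorem F1_leaf_ok {N : ℕ} (Cl : Finset ℕ) (P : ℝ) (q : Piece N) (hq : q.ok Cl P)
    (T : Net N × Net N) (h1 : ∀ z ∈ T.1.nodes ++ T.2.nodes, In q.D.K z)
    (h2 : ∀ v ∈ T.1.leaves ++ T.2.leaves, v ∈ q.D.vl) : (wT q T).ok Cl P where
  dok := hq.dok
  wpos := hq.wpos
  labs := hq.labs
  nods := h1
  lvs := h2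
  diam := hq.diam

private theorem F1_leaf_tlen {N : ℕ} (d : Pt N → Pt N → ℝ) (v : Fin N) (A : Net N) :
    Net.tlen d (Net.leaf v, A) = d (vx v) A.top + A.len d := by
  show d (vx v) A.top + 0 + A.len d = _
  ring

private theorem F1_leaf_len {N : ℕ} (d : Pt N → Pt N → ℝ) (z : Pt N) (l r : Net N) :
    (Net.node z l r).len d = d z l.top + d z r.top + l.len d + r.len d := rfl

theorem t_Fleaf (hst : S_Fst) (hpm : S_Fpm) (hrep : S_Frep) (hnmin : S_Fnmin) (hcls : S_Fcls) :
    S_Fleaf := by
  intro N Cl P S hM q hq T' hE v hv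
  obtain ⟨A, B⟩ := T'
  simp only at hv
  subst hv
  have hok : q.ok Cl P := hM.mem.ok q hq
  obtain ⟨-, p2, p3, -, p5⟩ := hpm
  obtain ⟨hPM, -, -, hT⟩ := p2 N Cl P q hok
  obtain ⟨hN1, hN2, hI1, hI2, hperm, -, hL⟩ := hT _ hE
  simp only at hN1 hN2 hI1 hI2 hperm hL
  by_contra hcon
  have h0 : q.d (vx v) B.top = 0 := le_antisymm (not_lt.1 hcon) (hPM.nonneg _ _)
  have hvlv : v ∈ q.lv := hperm.mem_iff.2 (by simp [Net.leaves])
  cases B with
  | leaf w =>
    have hwlv : w ∈ q.lv := hperm.mem_iff.2 (by simp [Net.leaves])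
    have hlab := hnmin N Cl P S hM.mem hM.lt hM.ih q hq v (hok.lvs v hvlv) w (hok.lvs w hwlv) h0
    have hnd := hcls N Cl P S hM.mem q hq
    have hnd' : ([v, w].map q.lab).Nodup := (hperm.map q.lab).nodup_iff.1 hnd
    simp [hlab] at hnd'
  | node z l r =>
    have h0' : q.d (vx v) z = 0 := h0
    have hlen : q.lv.length = 1 + (l.leaves.length + r.leaves.length) := by
      rw [hperm.length_eq]
      simp only [Net.leaves, List.cons_append, List.nil_append, List.length_cons,
        List.length_append]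
      omega
    have hmemlv : ∀ u, u ∈ q.lv ↔ u = v ∨ u ∈ l.leaves ∨ u ∈ r.leaves := by
      intro u
      rw [hperm.mem_iff]
      simp [Net.leaves]
    obtain ⟨pre, post, rfl⟩ := List.append_of_mem hq
    set q1 : Piece N := wT q (Net.leaf v, l) with hq1
    set q2 : Piece N := wT q (Net.leaf v, r) with hq2
    have hlv1 : q1.lv = v :: l.leaves := rfl
    have hlv2 : q2.lv = v :: r.leaves := rfl
    have hl1 : 1 ≤ l.leaves.length := p5 N l
    have hr1 : 1 ≤ r.leaves.length := p5 N r
    have hNl : NX (In q.D.K) l :=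
      ⟨fun x hx => hN2.1 x (by simp [Net.nodes, hx]), fun x hx => hN2.2 x (by simp [Net.leaves, hx])⟩
    have hNr : NX (In q.D.K) r :=
      ⟨fun x hx => hN2.1 x (by simp [Net.nodes, hx]), fun x hx => hN2.2 x (by simp [Net.leaves, hx])⟩
    have hRpl : Rpl Cl P pre post q [q1, q2] := by
      refine ⟨?_, ?_, ?_, ?_⟩
      · intro q' hq'
        simp only [List.mem_cons, List.not_mem_nil, or_false] at hq'
        rcases hq' with rfl | rfl
        · refine F1_leaf_ok Cl P q hok _ ?_ ?_
          · intro x hx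
            exact hNl.1 x (by simpa [Net.nodes] using hx)
          · intro u hu
            refine hok.lvs u ((hmemlv u).2 ?_)
            simp only [Net.leaves, List.cons_append, List.nil_append, List.mem_cons] at hu
            tauto
        · refine F1_leaf_ok Cl P q hok _ ?_ ?_
          · intro x hx
            exact hNr.1 x (by simpa [Net.nodes] using hx)
          · intro u hu
            refine hok.lvs u ((hmemlv u).2 ?_)
            simp only [Net.leaves, List.cons_append, List.nil_append, List.mem_cons] at hu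
            tauto
      · intro q' hq' a ha b hb
        simp only [List.mem_cons, List.not_mem_nil, or_false] at hq'
        rcases hq' with rfl | rfl
        · exact ⟨a, ha, b, hb, rfl, rfl, le_rfl⟩
        · exact ⟨a, ha, b, hb, rfl, rfl, le_rfl⟩
      · have key : ∀ u ∈ q.lv, HJ (pre ++ [q1, q2] ++ post) (q.lab u) (q.lab v) := by
          intro u hu
          rcases (hmemlv u).1 hu with h | h | h
          · rw [h]; exact Relation.ReflTransGen.refl
          · refine Relation.ReflTransGen.single ⟨q1, by simp, ?_, ?_⟩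
            · exact List.mem_map.2 ⟨u, by rw [hlv1]; exact List.mem_cons_of_mem _ h, rfl⟩
            · exact List.mem_map.2 ⟨v, by rw [hlv1]; exact List.mem_cons_self, rfl⟩
          · refine Relation.ReflTransGen.single ⟨q2, by simp, ?_, ?_⟩
            · exact List.mem_map.2 ⟨u, by rw [hlv2]; exact List.mem_cons_of_mem _ h, rfl⟩
            · exact List.mem_map.2 ⟨v, by rw [hlv2]; exact List.mem_cons_self, rfl⟩
        intro u hu u' hu'
        exact (key u hu).trans (hst.2.2.2.1 N _ _ _ (key u' hu'))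
      · simp only [List.map_cons, List.map_nil, List.sum_cons, List.sum_nil, hlv1, hlv2,
          List.length_cons]
        omega
    obtain ⟨-, hmu⟩ := hrep.2.2 N Cl P pre post q [q1, q2] hM hRpl
    have hL1 : q1.L = q.d (vx v) l.top + l.len q.d := F1_leaf_tlen q.d v l
    have hL2 : q2.L = q.d (vx v) r.top + r.len q.d := F1_leaf_tlen q.d v r
    have hL3 : q.L = q.d (vx v) z + (q.d z l.top + q.d z r.top + l.len q.d + r.len q.d) := by
      rw [hL, F1_leaf_tlen, F1_leaf_len]
      rfl
    have t1 := hPM.tri (vx v) z l.top hI1 hI2 (p3 N _ l hNl)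
    have t2 := hPM.tri (vx v) z r.top hI1 hI2 (p3 N _ r hNr)
    have hsum : ([q1, q2].map Piece.L).sum ≤ q.L := by
      simp only [List.map_cons, List.map_nil, List.sum_cons, List.sum_nil]
      rw [hL1, hL2, hL3]
      linarith
    have hm := hmu hsum
    have hvl : 2 ≤ q.D.vl.length := by
      unfold Dsc.vl
      simp
    simp only [List.map_cons, List.map_nil, List.sum_cons, List.sum_nil, Piece.mu, hlv1, hlv2,
      List.length_cons] at hm
    have hD1 : q1.D = q.D := rfl
    have hD2 : q2.D = q.D := rfl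
    rw [hD1, hD2, hlen] at hm
    obtain ⟨m, hm'⟩ : ∃ m, q.D.vl.length - 1 = m + 1 := ⟨q.D.vl.length - 2, by omega⟩
    obtain ⟨a, ha⟩ : ∃ a, l.leaves.length = a + 1 := ⟨l.leaves.length - 1, by omega⟩
    obtain ⟨b, hb⟩ : ∃ b, r.leaves.length = b + 1 := ⟨r.leaves.length - 1, by omega⟩
    rw [hm', ha, hb] at hm
    have e1 : 1 + (a + 1 + (b + 1)) - 1 = a + b + 2 := by omega
    have e2 : a + 1 + 1 - 1 = a + 1 := by omega
    have e3 : b + 1 + 1 - 1 = b + 1 := by omega
    rw [e1, e2, e3] at hm
    nlinarith [Nat.zero_le (a * b), Nat.zero_le (a * m), Nat.zero_le (b * m),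
      Nat.zero_le (a * b * m)]

end Pool.Agent.Lib.MP_9f84a9_co
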