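import Pool.Agent.Lib.MP_9f84a9_co.F.StmF1

set_option autoImplicit false

namespace Pool.Agent.Lib.MP_9f84a9_co

open Finset

theorem F1_mrg_ch {N : ℕ} (S : Cfg N) (A B : ℕ) (x y : ℕ) (r : ℝ)
    (h : Ch (S.map (rlb A B)) x y r) :
    ∃ a b, (if a = B then A else a) = x ∧ (if b = B then A else b) = y ∧ Ch S a b r := by
  obtain ⟨q', hq', v, hv, w, hw, h1, h2, h3⟩ := h
  rw [List.mem_map] at hq'
  obtain ⟨q, hq, rfl⟩ := hq'
  exact ⟨q.lab v, q.lab w, h1, h2, q, hq, v, hv, w, hw, rfl, rfl, h3⟩

theorem F1_mrg_list {N : ℕ} (S : Cfg N) (A B : ℕ) : ∀ (l : List (ℕ × ℕ × ℝ)),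
    (∀ t ∈ l, Ch (S.map (rlb A B)) t.1 t.2.1 t.2.2) →
    ∃ l₀ : List (ℕ × ℕ × ℝ), (∀ t ∈ l₀, Ch S t.1 t.2.1 t.2.2) ∧
      (l₀.map (·.2.2)).sum = (l.map (·.2.2)).sum ∧
      ∀ x y r, (x, y, r) ∈ l → ∃ a b, (if a = B then A else a) = x ∧
        (if b = B then A else b) = y ∧ (a, b, r) ∈ l₀
  | [], _ => ⟨[], by simp, by simp, by simp⟩
  | t :: l, h => by
    obtain ⟨l₀, h1, h2, h3⟩ := F1_mrg_list S A B l (fun t ht => h t (List.mem_cons_of_mem _ ht))
    obtain ⟨a, b, ha, hb, hc⟩ := F1_mrg_ch S A B t.1 t.2.1 t.2.2 (h t List.mem_cons_self)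
    refine ⟨(a, b, t.2.2) :: l₀, ?_, ?_, ?_⟩
    · intro t' ht'
      rcases List.mem_cons.mp ht' with rfl | ht'
      · exact hc
      · exact h1 t' ht'
    · simp [h2]
    · intro x y r hxy
      rcases List.mem_cons.mp hxy with hxy | hxy
      · subst hxy
        exact ⟨a, b, ha, hb, List.mem_cons_self⟩
      · obtain ⟨a', b', h4, h5, h6⟩ := h3 x y r hxy
        exact ⟨a', b', h4, h5, List.mem_cons_of_mem _ h6⟩

theorem t_Fmrg : S_Fmrg := by
  intro N Cl P S A B hA hB hAB hok hconn hmst hch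
  refine ⟨?_, ?_, ?_, ?_, ?_⟩
  · intro q' hq'
    rw [List.mem_map] at hq'
    obtain ⟨q, hq, rfl⟩ := hq'
    have h := hok q hq
    refine ⟨h.dok, h.wpos, ?_, h.nods, h.lvs, h.diam⟩
    intro v
    show (if q.lab v = B then A else q.lab v) ∈ Cl.erase B
    split_ifs with hv
    · exact mem_erase.mpr ⟨hAB, hA⟩
    · exact mem_erase.mpr ⟨hv, h.labs v⟩
  · intro a ha b hb
    rw [mem_erase] at ha hb
    have h1 := hconn a ha.2 b hb.2
    have h2 : HJ (S.map (rlb A B)) ((fun c => if c = B then A else c) a)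
        ((fun c => if c = B then A else c) b) := by
      refine Relation.ReflTransGen.lift (fun c => if c = B then A else c) ?_ _ _ h1
      rintro x y ⟨q, hq, hx, hy⟩
      rw [List.mem_map] at hx hy
      obtain ⟨v, hv, rfl⟩ := hx
      obtain ⟨w, hw, rfl⟩ := hy
      refine ⟨rlb A B q, List.mem_map.mpr ⟨q, hq, rfl⟩, List.mem_map.mpr ⟨v, hv, rfl⟩,
        List.mem_map.mpr ⟨w, hw, rfl⟩⟩
    simpa [ha.1, hb.1] using h2
  · intro l hl hj
    obtain ⟨l₀, h1, h2, h3⟩ := F1_mrg_list S A B l hl
    have key : (1 : ℝ) ≤ (((A, B, (0 : ℝ)) :: l₀).map (·.2.2)).sum := by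
      refine hmst _ ?_ ?_
      · intro t ht
        rcases List.mem_cons.mp ht with rfl | ht
        · exact hch
        · exact h1 t ht
      · set R : ℕ → ℕ → Prop := fun x y => ∃ r, (x, y, r) ∈ (A, B, (0 : ℝ)) :: l₀ ∨
          (y, x, r) ∈ (A, B, (0 : ℝ)) :: l₀ with hR
        haveI hsym : Std.Symm R := by
          refine ⟨?_⟩
          rintro x y ⟨r, h | h⟩
          · exact ⟨r, Or.inr h⟩
          · exact ⟨r, Or.inl h⟩
        have hsym' : ∀ x y, Relation.ReflTransGen R x y → Relation.ReflTransGen R y x :=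
          fun x y h => (Relation.ReflTransGen.stdSymm (r := R)).symm x y h
        have hg : ∀ a, Relation.ReflTransGen R a (if a = B then A else a) := by
          intro a
          split_ifs with h
          · subst h
            exact Relation.ReflTransGen.single ⟨0, Or.inr List.mem_cons_self⟩
          · exact Relation.ReflTransGen.refl
        have hstep : ∀ x y r, (x, y, r) ∈ l → Relation.ReflTransGen R x y := by
          intro x y r hxy
          obtain ⟨a, b, ha, hb, hab⟩ := h3 x y r hxy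
          subst ha hb
          refine (hsym' _ _ (hg a)).trans (Relation.ReflTransGen.trans ?_ (hg b))
          exact Relation.ReflTransGen.single ⟨r, Or.inl (List.mem_cons_of_mem _ hab)⟩
        intro a ha b hb
        have hga : (if a = B then A else a) ∈ Cl.erase B := by
          split_ifs with h
          · exact mem_erase.mpr ⟨hAB, hA⟩
          · exact mem_erase.mpr ⟨h, ha⟩
        have hgb : (if b = B then A else b) ∈ Cl.erase B := by
          split_ifs with h
          · exact mem_erase.mpr ⟨hAB, hA⟩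
          · exact mem_erase.mpr ⟨h, hb⟩
        have hc := hj _ hga _ hgb
        have hc' : Relation.ReflTransGen R (if a = B then A else a) (if b = B then A else b) := by
          refine Relation.ReflTransGen.lift' id ?_ _ _ hc
          rintro x y ⟨r, h | h⟩
          · exact hstep x y r h
          · exact hsym' _ _ (hstep y x r h)
        exact ((hg a).trans hc').trans (hsym' _ _ (hg b))
    simpa [h2] using key
  · unfold Lc
    rw [List.map_map]
    rfl
  · rw [List.map_map]
    rfl

end Pool.Agent.Lib.MP_9f84a9_co
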