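import Pool.Agent.Lib.MP_9f84a9_co.F.StmF1

/-!
# MP_9f84a9_co: pruning a superfluous leaf
-/

set_option autoImplicit false

namespace Pool.Agent.Lib.MP_9f84a9_co

open Finset

private theorem F1_nb_rj {N : ℕ} {S : Cfg N} {L : List (ℕ × ℕ)} (h : ∀ e ∈ L, Hst S e.1 e.2)
    {a b : ℕ} (hab : RJ L a b) : HJ S a b := by
  have hle : (fun x y => (x, y) ∈ L ∨ (y, x) ∈ L) ≤ Hst S := ?_
  · exact Relation.ReflTransGen.mono hle a b hab
  rintro x y (hxy | hxy)
  · exact h _ hxy
  · obtain ⟨q, hq, h1, h2⟩ := h _ hxy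
    exact ⟨q, hq, h2, h1⟩

private theorem F1_nb_hst {N : ℕ} {S S' : Cfg N} (h : ∀ q ∈ S, q ∈ S') {a b : ℕ}
    (hab : Hst S a b) : Hst S' a b := by
  obtain ⟨q, hq, h1, h2⟩ := hab
  exact ⟨q, h q hq, h1, h2⟩

theorem t_Fnb (htree : S_Ftree) (hcat : S_Fcat) (hst : S_Fst) (hprn : S_Fprn) (hpm : S_Fpm) :
    S_Fnb := by
  intro N Cl P S hne hok hHJ hcard
  obtain ⟨-, -, -, -, -, s6, s7⟩ := hst
  obtain ⟨hlen, hends⟩ := s7 N S
  have hends' : ∀ e ∈ sts S, e.1 ∈ Cl ∧ e.2 ∈ Cl := by
    intro e he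
    obtain ⟨q, hq, h1, h2⟩ := hends e he
    obtain ⟨v, -, hv⟩ := List.mem_map.1 h1
    obtain ⟨w, -, hw⟩ := List.mem_map.1 h2
    exact ⟨hv ▸ (hok q hq).labs v, hw ▸ (hok q hq).labs w⟩
  obtain ⟨L₁, e, L₂, hL, hjoin⟩ := (htree Cl (sts S) hne hends'
    (fun a ha b hb => (s6 N S a b).1 (hHJ a ha b hb))).2 (by rw [hlen]; exact hcard)
  obtain ⟨pre, c₁, c₂, post, hdec, hL1, hL2⟩ := hcat (ℕ × ℕ)
    (S.map fun q : Piece N => stl (q.lv.map q.lab)) L₁ L₂ e hL
  obtain ⟨S₁, S₂, hS, hS1, hS2⟩ := List.map_eq_append_iff.1 hdec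
  obtain ⟨q, S₃, hS2', hq, hS3⟩ := List.map_eq_cons_iff.1 hS2
  subst hS2'
  have hqS : q ∈ S := by rw [hS]; simp
  have hqok := hok q hqS
  -- the leaves of `q`
  obtain ⟨h, t, hlv⟩ : ∃ h t, q.lv = h :: t := by
    match hh : q.lv with
    | [] =>
      rw [hh] at hq
      simp [stl] at hq
    | h :: t => exact ⟨h, t, rfl⟩
  have hq' : t.map (fun v => (q.lab h, q.lab v)) = c₁ ++ e :: c₂ := by
    rw [← hq, hlv]
    simp [stl, Function.comp_def]
  obtain ⟨t₁, t₂', ht, ht1, ht2⟩ := List.map_eq_append_iff.1 hq'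
  obtain ⟨u, t₂, ht2', hu, ht3⟩ := List.map_eq_cons_iff.1 ht2
  subst ht2'
  subst ht
  -- the remaining pairs
  have hpre : pre.flatten = sts S₁ := by rw [← hS1]; rfl
  have hpost : post.flatten = sts S₃ := by rw [← hS3]; rfl
  have hkey : ∀ S' : Cfg N, (∀ x ∈ S₁, x ∈ S') → (∀ x ∈ S₃, x ∈ S') →
      (∀ v, v ∈ t₁ ∨ v ∈ t₂ → Hst S' (q.lab h) (q.lab v)) →
      ∀ a ∈ Cl, ∀ b ∈ Cl, HJ S' a b := by
    intro S' h1 h3 h2 a ha b hb
    refine F1_nb_rj ?_ (hjoin a ha b hb)
    intro e' he'
    rw [hL1, hL2, hpre, hpost] at he'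
    rcases List.mem_append.1 he' with he' | he'
    · rcases List.mem_append.1 he' with he' | he'
      · exact F1_nb_hst h1 ((s7 N S₁).2 e' he')
      · rw [← ht1] at he'
        obtain ⟨v, hv, rfl⟩ := List.mem_map.1 he'
        exact h2 v (Or.inl hv)
    · rcases List.mem_append.1 he' with he' | he'
      · rw [← ht3] at he'
        obtain ⟨v, hv, rfl⟩ := List.mem_map.1 he'
        exact h2 v (Or.inr hv)
      · exact F1_nb_hst h3 ((s7 N S₃).2 e' he')
  obtain ⟨pm, nx1, nx2, -⟩ := hpm.2.1 N Cl P q hqok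
  by_cases hcase : t₁ = [] ∧ t₂ = []
  · obtain ⟨rfl, rfl⟩ := hcase
    refine ⟨S₁ ++ S₃, ?_, ?_, ?_, ?_, ?_⟩
    · intro x hx
      apply hok
      rw [hS]
      rcases List.mem_append.1 hx with hx | hx
      · exact List.mem_append.2 (Or.inl hx)
      · exact List.mem_append.2 (Or.inr (List.mem_cons_of_mem _ hx))
    · refine hkey _ (fun x hx => List.mem_append.2 (Or.inl hx))
        (fun x hx => List.mem_append.2 (Or.inr hx)) ?_
      rintro v (hv | hv) <;> simp at hv
    · rw [hS]
      simp only [List.map_append, List.map_cons, List.sum_append, List.sum_cons]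
      rw [hlv]
      simp only [List.nil_append, List.length_cons, List.length_nil]
      omega
    · rw [hS]
      unfold Lc
      simp only [List.map_append, List.map_cons, List.sum_append, List.sum_cons]
      have h0 : 0 ≤ q.L := by
        have a1 := pm.nonneg q.T.1.top q.T.2.top
        have a2 := hpm.2.2.2.1 N (In q.D.K) q.d q.T.1 pm
        have a3 := hpm.2.2.2.1 N (In q.D.K) q.d q.T.2 pm
        show 0 ≤ q.d q.T.1.top q.T.2.top + q.T.1.len q.d + q.T.2.len q.d
        linarith
      linarith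
    · rintro a b r ⟨x, hx, hrest⟩
      refine ⟨x, ?_, hrest⟩
      rw [hS]
      rcases List.mem_append.1 hx with hx | hx
      · exact List.mem_append.2 (Or.inl hx)
      · exact List.mem_append.2 (Or.inr (List.mem_cons_of_mem _ hx))
  · have h3 : 3 ≤ q.lv.length := by
      rw [hlv]
      simp only [List.length_cons, List.length_append]
      have : 0 < t₁.length ∨ 0 < t₂.length := by
        by_contra hc
        push Not at hc
        exact hcase ⟨List.length_eq_zero_iff.1 (by omega), List.length_eq_zero_iff.1 (by omega)⟩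
      omega
    have hul : u ∈ q.lv := by rw [hlv]; simp
    obtain ⟨T', hperm, hnodes, hle⟩ := hprn N (In q.D.K) q.d q.T pm nx1 nx2 h3 u hul
    have hperm' : (u :: (wT q T').lv).Perm q.lv := hperm
    have hperm2 : ((wT q T').lv).Perm (h :: (t₁ ++ t₂)) := by
      rw [hlv] at hperm'
      have e1 : (h :: (t₁ ++ u :: t₂)).Perm (u :: (h :: (t₁ ++ t₂))) := by
        have e2 : (t₁ ++ u :: t₂).Perm (u :: (t₁ ++ t₂)) := List.perm_middle
        exact (e2.cons h).trans (List.Perm.swap _ _ _)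
      exact (List.perm_cons u).1 (hperm'.trans e1)
    have hqok' : (wT q T').ok Cl P := by
      refine ⟨hqok.dok, hqok.wpos, hqok.labs, ?_, ?_, hqok.diam⟩
      · intro z hz
        exact hqok.nods z (hnodes z hz)
      · intro v hv
        exact hqok.lvs v (hperm'.mem_iff.1 (List.mem_cons_of_mem _ hv))
    have hlen' := hperm'.length_eq
    rw [List.length_cons] at hlen'
    refine ⟨S₁ ++ wT q T' :: S₃, ?_, ?_, ?_, ?_, ?_⟩
    · intro x hx
      rcases List.mem_append.1 hx with hx | hx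
      · apply hok
        rw [hS]
        exact List.mem_append.2 (Or.inl hx)
      · rcases List.mem_cons.1 hx with rfl | hx
        · exact hqok'
        · apply hok
          rw [hS]
          exact List.mem_append.2 (Or.inr (List.mem_cons_of_mem _ hx))
    · refine hkey _ (fun x hx => List.mem_append.2 (Or.inl hx))
        (fun x hx => List.mem_append.2 (Or.inr (List.mem_cons_of_mem _ hx))) ?_
      intro v hv
      refine ⟨wT q T', by simp, ?_, ?_⟩
      · refine List.mem_map.2 ⟨h, hperm2.mem_iff.2 (by simp), rfl⟩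
      · refine List.mem_map.2 ⟨v, hperm2.mem_iff.2 ?_, rfl⟩
        rcases hv with hv | hv
        · simp [hv]
        · simp [hv]
    · rw [hS]
      simp only [List.map_append, List.map_cons, List.sum_append, List.sum_cons]
      omega
    · rw [hS]
      unfold Lc
      simp only [List.map_append, List.map_cons, List.sum_append, List.sum_cons]
      have h0 : (wT q T').L ≤ q.L := hle
      linarith
    · rintro a b r ⟨x, hx, hrest⟩
      rcases List.mem_append.1 hx with hx | hx
      · refine ⟨x, ?_, hrest⟩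
        rw [hS]
        exact List.mem_append.2 (Or.inl hx)
      · rcases List.mem_cons.1 hx with rfl | hx
        · exact ⟨q, hqS, hrest⟩
        · refine ⟨x, ?_, hrest⟩
          rw [hS]
          exact List.mem_append.2 (Or.inr (List.mem_cons_of_mem _ hx))

end Pool.Agent.Lib.MP_9f84a9_co
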