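import Pool.Agent.Lib.MP_9f84a9_co.F.StmF1

set_option autoImplicit false

namespace Pool.Agent.Lib.MP_9f84a9_co

open Finset

theorem t_Fnmin (hrep : S_Frep) (hnb : S_Fnb) (hmrg : S_Fmrg) : S_Fnmin := by
  intro N Cl P S hD hlt hY q hq v hv w hw hd
  by_contra hne
  have hA : q.lab v ∈ Cl := (hD.ok q hq).labs v
  have hB : q.lab w ∈ Cl := (hD.ok q hq).labs w
  have hch : Ch S (q.lab v) (q.lab w) 0 := ⟨q, hq, v, hv, w, hw, rfl, rfl, hd.le⟩
  obtain ⟨h1, h2, h3, h4, h5⟩ := hmrg N Cl P S (q.lab v) (q.lab w) hA hB hne hD.ok hD.conn hD.mst hch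
  have hcard : (Cl.erase (q.lab w)).card + 1 = Cl.card := Finset.card_erase_add_one hB
  have hYc := hY (Cl.erase (q.lab w)).card (by omega)
  have hcnt := hD.cnt
  by_cases hc : ((S.map (rlb (q.lab v) (q.lab w))).map fun q => q.lv.length - 1).sum + 1 ≤
      (Cl.erase (q.lab w)).card
  · have hin : InD (Cl.erase (q.lab w)) P (S.map (rlb (q.lab v) (q.lab w))) := ⟨h1, h2, hc, h3⟩
    have := hYc N (Cl.erase (q.lab w)) P _ rfl hin
    rw [h4] at this
    exact absurd hlt (not_lt.mpr this)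
  · have hne' : (Cl.erase (q.lab w)).Nonempty := ⟨q.lab v, mem_erase.mpr ⟨hne, hA⟩⟩
    obtain ⟨S', g1, g2, g3, g4, g5⟩ := hnb N (Cl.erase (q.lab w)) P
      (S.map (rlb (q.lab v) (q.lab w))) hne' h1 h2 (by omega)
    have hm : MSTge (Cl.erase (q.lab w)) S' 1 := hrep.1 N _ _ _ 1 g5 h3
    have hin : InD (Cl.erase (q.lab w)) P S' := ⟨g1, g2, by omega, hm⟩
    have := hYc N (Cl.erase (q.lab w)) P _ rfl hin
    rw [h4] at g4
    linarith

end Pool.Agent.Lib.MP_9f84a9_co
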