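import Pool.Agent.Lib.MP_9f84a9_co.F.StmF1

/-!
# MP_9f84a9_co, piece F1 one: positive length and minimum spanning value 1
-/

set_option autoImplicit false

namespace Pool.Agent.Lib.MP_9f84a9_co

open Finset

theorem F1_one_L {N : ℕ} (hpm : S_Fpm) (Cl : Finset ℕ) (P : ℝ) (q : Piece N) (h : q.ok Cl P) :
    0 ≤ q.L := by
  obtain ⟨-, hp2, -, hp4, -⟩ := hpm
  obtain ⟨hPM, -, -, -⟩ := hp2 N Cl P q h
  unfold Piece.L Net.tlen
  have a1 := hPM.nonneg q.T.1.top q.T.2.top
  have a2 := hp4 N _ q.d q.T.1 hPM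
  have a3 := hp4 N _ q.d q.T.2 hPM
  linarith

/-- the piece `q` scaled by `c` -/
noncomputable def F1_one_s {N : ℕ} (c : ℝ) (q : Piece N) : Piece N :=
  ⟨q.D, fun v => c • q.p v, q.lab, q.T⟩

theorem F1_one_pos {N : ℕ} (hx3 : S_X3) (hpm : S_Fpm) (hleaf : S_Fleaf) (Cl : Finset ℕ) (P : ℝ)
    (S : Cfg N) (hM : Mcal Cl P S) : 0 < Lc S := by
  have hnn := F1_one_L hpm Cl P (N := N)
  obtain ⟨-, hp2, -, hp4, hp5⟩ := hpm
  have hne : S ≠ [] := by
    intro hS
    have hH : ∀ a b, HJ S a b → a = b := by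
      intro a b h
      unfold HJ at h
      induction h with
      | refl => rfl
      | tail _ hst _ =>
        obtain ⟨q, hq, -⟩ := hst
        rw [hS] at hq
        simp at hq
    have hJ : Joins Cl [] := by
      intro a ha b hb
      rw [hH a b (hM.mem.conn a ha b hb)]
    have := hM.mem.mst [] (by simp) hJ
    simp at this
    linarith
  obtain ⟨q, hq⟩ := List.exists_mem_of_ne_nil S hne
  have hqok := hM.mem.ok q hq
  obtain ⟨hPM, -, -, hT⟩ := hp2 N Cl P q hqok
  have hl := hp5 N q.T.1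
  obtain ⟨v, hv⟩ := List.exists_mem_of_length_pos (show 0 < q.T.1.leaves.length by omega)
  obtain ⟨-, -, -, -, hx5⟩ := hx3 N q.T q.T Relation.ReflTransGen.refl
  obtain ⟨T', hT', hT1⟩ := hx5 v (List.mem_append_left _ hv)
  have h1 := hleaf N Cl P S hM q hq T' hT' v hT1
  obtain ⟨-, -, -, -, -, -, hL⟩ := hT T' hT'
  have h2 : 0 < q.L := by
    rw [hL]
    unfold Net.tlen
    rw [hT1]
    have a3 := hp4 N _ q.d T'.2 hPM
    show 0 < q.d (vx v) T'.2.top + 0 + T'.2.len q.d
    linarith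
  have h3 : q.L ≤ Lc S := by
    unfold Lc
    refine List.single_le_sum (l := S.map Piece.L) ?_ _ (List.mem_map.2 ⟨q, hq, rfl⟩)
    intro x hx
    obtain ⟨q', hq', rfl⟩ := List.mem_map.1 hx
    exact hnn q' (hM.mem.ok q' hq')
  linarith

/-- [F1 one] -/
theorem t_Fone (hx3 : S_X3) (hpm : S_Fpm) (hleaf : S_Fleaf) (hsc : S_Fsc) : S_Fone := by
  intro N Cl P S hM
  have hpos := F1_one_pos hx3 hpm hleaf Cl P S hM
  refine ⟨hpos, ?_⟩
  intro M hMS
  by_contra hM1
  push Not at hM1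
  have hM0 : 0 < M := by linarith
  set c : ℝ := M⁻¹ with hc
  have hc0 : 0 < c := inv_pos.2 hM0
  have hc1 : c < 1 := by
    rw [hc]
    exact inv_lt_one_of_one_lt₀ hM1
  have hd : ∀ (q : Piece N) (x y : Pt N), (F1_one_s c q).d x y = c * q.d x y := by
    intro q x y
    exact (hsc N c hc0 q.p).1 q.D.K x y
  have hL : ∀ q : Piece N, (F1_one_s c q).L = c * q.L := by
    intro q
    have e : (F1_one_s c q).d = fun x y => c * q.d x y := by
      funext x y
      exact hd q x y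
    unfold Piece.L
    rw [e]
    exact (hsc N c hc0 q.p).2.2 q.d q.T
  set S' : Cfg N := S.map (F1_one_s c) with hS'
  have hLc : Lc S' = c * Lc S := by
    unfold Lc
    rw [hS', List.map_map]
    have : (Piece.L ∘ F1_one_s c : Piece N → ℝ) = fun q => c * q.L := by
      funext q
      exact hL q
    rw [this, List.sum_map_mul_left]
  have hIn : InD Cl P S' := by
    refine ⟨?_, ?_, ?_, ?_⟩
    · intro q' hq'
      obtain ⟨q, hq, rfl⟩ := List.mem_map.1 hq'
      have h := hM.mem.ok q hq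
      refine ⟨h.dok, (hsc N c hc0 q.p).2.1 q.D h.wpos, h.labs, h.nods, h.lvs, ?_⟩
      intro v hv w hw
      have h1 := h.diam v hv w hw
      show dist (c • q.p v) (c • q.p w) ≤ P
      rw [dist_smul₀, Real.norm_eq_abs, abs_of_pos hc0]
      have h2 : (0 : ℝ) ≤ dist (q.p v) (q.p w) := dist_nonneg
      nlinarith
    · intro a ha b hb
      refine Relation.ReflTransGen.mono ?_ _ _ (hM.mem.conn a ha b hb)
      rintro x y ⟨q, hq, h1, h2⟩
      exact ⟨F1_one_s c q, List.mem_map.2 ⟨q, hq, rfl⟩, h1, h2⟩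
    · have h := hM.mem.cnt
      rw [hS', List.map_map]
      exact h
    · intro l hl hJ
      have h1 := hMS (l.map fun t => (t.1, t.2.1, M * t.2.2)) ?_ ?_
      · rw [List.map_map] at h1
        have e : ((fun t : ℕ × ℕ × ℝ => t.2.2) ∘ fun t : ℕ × ℕ × ℝ => (t.1, t.2.1, M * t.2.2)) =
            fun t => M * t.2.2 := rfl
        rw [e, List.sum_map_mul_left] at h1
        have h2 : M * 1 ≤ M * (l.map fun t => t.2.2).sum := by
          rw [mul_one]
          exact h1
        exact le_of_mul_le_mul_left h2 hM0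
      · intro t ht
        obtain ⟨t', ht', rfl⟩ := List.mem_map.1 ht
        obtain ⟨q', hq', v, hv, w, hw, e1, e2, hle⟩ := hl t' ht'
        obtain ⟨q, hq, rfl⟩ := List.mem_map.1 hq'
        refine ⟨q, hq, v, hv, w, hw, e1, e2, ?_⟩
        show q.d (vx v) (vx w) ≤ M * t'.2.2
        rw [hd] at hle
        have h3 : q.d (vx v) (vx w) = M * (c * q.d (vx v) (vx w)) := by
          rw [← mul_assoc, hc, mul_inv_cancel₀ (ne_of_gt hM0), one_mul]
        rw [h3]
        exact mul_le_mul_of_nonneg_left hle (le_of_lt hM0)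
      · intro a ha b hb
        refine Relation.ReflTransGen.mono ?_ _ _ (hJ a ha b hb)
        rintro x y ⟨r, h | h⟩
        · exact ⟨M * r, Or.inl (List.mem_map.2 ⟨(x, y, r), h, rfl⟩)⟩
        · exact ⟨M * r, Or.inr (List.mem_map.2 ⟨(y, x, r), h, rfl⟩)⟩
  have h := hM.o1 S' hIn
  rw [hLc] at h
  nlinarith

end Pool.Agent.Lib.MP_9f84a9_co
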