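import Pool.Agent.Lib.MP_9f84a9_co.F.StmF1

set_option autoImplicit false

namespace Pool.Agent.Lib.MP_9f84a9_co

open Finset

private theorem F1_oth_ne {N : ℕ} (A : Net N) : ∃ u, u ∈ A.leaves := by
  induction A with
  | leaf v => exact ⟨v, by simp [Net.leaves]⟩
  | node z l r ihl _ =>
    obtain ⟨u, hu⟩ := ihl
    exact ⟨u, by simp [Net.leaves, hu]⟩

theorem t_Foth : S_Foth := by
  intro N Cl pre post q c hconn hlab hc
  obtain ⟨u₀, hu₀⟩ := F1_oth_ne q.T.1
  have hu0 : u₀ ∈ q.lv := by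
    unfold Piece.lv
    exact List.mem_append_left _ hu₀
  have h := hconn c hc (q.lab u₀) (hlab u₀)
  unfold HJ at h
  clear hc
  induction h using Relation.ReflTransGen.head_induction_on with
  | refl => exact ⟨u₀, hu0, Relation.ReflTransGen.refl⟩
  | head hst _ ih =>
    rename_i a b
    obtain ⟨u, hu, hj⟩ := ih
    obtain ⟨q', hq', ha, hb⟩ := hst
    have hmem : q' ∈ pre ++ post ∨ q' = q := by
      simp only [List.mem_append, List.mem_cons] at hq' ⊢
      tauto
    rcases hmem with hm | rfl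
    · exact ⟨u, hu, Relation.ReflTransGen.head ⟨q', hm, ha, hb⟩ hj⟩
    · obtain ⟨v, hv, rfl⟩ := List.mem_map.1 ha
      exact ⟨v, hv, Relation.ReflTransGen.refl⟩

end Pool.Agent.Lib.MP_9f84a9_co
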