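import Pool.Agent.Lib.MP_9f84a9_co.F.StmF1

/-!
# MP_9f84a9_co, module F1: piece pm
-/

set_option autoImplicit false

namespace Pool.Agent.Lib.MP_9f84a9_co

open Finset

theorem F1_pm_top (N : ℕ) (X : Pt N → Prop) (A : Net N) (h : NX X A) : X A.top := by
  cases A with
  | leaf v => exact h.2 v (by simp [Net.leaves])
  | node z l r => exact h.1 z (by simp [Net.nodes])

theorem F1_pm_len (N : ℕ) (X : Pt N → Prop) (d : Pt N → Pt N → ℝ) (A : Net N) (h : PM X d) :
    0 ≤ A.len d := by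
  induction A with
  | leaf v => exact le_refl _
  | node z l r hl hr =>
    show 0 ≤ d z l.top + d z r.top + l.len d + r.len d
    have h1 := h.nonneg z l.top
    have h2 := h.nonneg z r.top
    linarith

theorem F1_pm_leaves (N : ℕ) (A : Net N) : 1 ≤ A.leaves.length := by
  induction A with
  | leaf v => exact le_refl _
  | node z l r hl hr =>
    show 1 ≤ (l.leaves ++ r.leaves).length
    rw [List.length_append]
    omega

theorem t_Fpm (h1 : S_A1) (h2 : S_A2) (hb4 : S_B4) (hb5 : S_B5) (hx3 : S_X3) : S_Fpm := by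
  have hD : ∀ (N : ℕ) (D : Dsc N) (p : Fin N → E), D.ok →
      PM (In D.K) (dK D.K (ce p)) ∧ (∀ v ∈ D.vl, In D.K (vx v)) ∧
      (∀ v, In D.K (vx v) → v ∈ D.vl) := by
    intro N D p hok
    obtain ⟨a1, a2, a3, a4, _⟩ := h2 N D.K (ce p) ((h1 N).1 p) (hb5 N D hok)
    refine ⟨⟨a1, a3, a2, a4⟩, ?_, ?_⟩
    · intro v hv
      obtain ⟨f, hf, hvf⟩ := (hb4 N D hok).2.1 v hv
      exact ((h1 N).2.2.2.2.1 D.K f v hf hvf).1
    · intro v hv
      obtain ⟨_, _, f, hf, hs⟩ := hv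
      have hvf : v ∈ f := by
        by_contra h
        have := hs v h
        unfold vx at this
        rw [Pi.single_eq_same] at this
        exact one_ne_zero this
      exact (hb4 N D hok).1 f hf v hvf
  refine ⟨hD, ?_, F1_pm_top, F1_pm_len, F1_pm_leaves⟩
  intro N Cl P q hq
  obtain ⟨hPM, hv, _⟩ := hD N q.D q.p hq.dok
  have hNX : ∀ T' : Net N × Net N, q.lv.Perm (T'.1.leaves ++ T'.2.leaves) →
      q.nd.Perm (T'.1.nodes ++ T'.2.nodes) → NX (In q.D.K) T'.1 ∧ NX (In q.D.K) T'.2 := by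
    intro T' hl hn
    refine ⟨⟨?_, ?_⟩, ⟨?_, ?_⟩⟩
    · intro z hz
      exact hq.nods z (hn.mem_iff.2 (List.mem_append_left _ hz))
    · intro v hv'
      exact hv v (hq.lvs v (hl.mem_iff.2 (List.mem_append_left _ hv')))
    · intro z hz
      exact hq.nods z (hn.mem_iff.2 (List.mem_append_right _ hz))
    · intro v hv'
      exact hv v (hq.lvs v (hl.mem_iff.2 (List.mem_append_right _ hv')))
  obtain ⟨hn1, hn2⟩ := hNX q.T (List.Perm.refl _) (List.Perm.refl _)
  refine ⟨hPM, hn1, hn2, ?_⟩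
  intro T' hT'
  obtain ⟨x1, x2, x3, _, _⟩ := hx3 N q.T T' hT'
  obtain ⟨hm1, hm2⟩ := hNX T' x1 x2
  exact ⟨hm1, hm2, F1_pm_top N _ _ hm1, F1_pm_top N _ _ hm2, x1, x2, x3 q.d hPM.symm⟩

end Pool.Agent.Lib.MP_9f84a9_co
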