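import Pool.Agent.Lib.MP_9f84a9_co.F.StmF1

/-!
# MP_9f84a9_co, [F1 prn]: pruning a leaf from an unrooted network with at least three leaves
-/

set_option autoImplicit false

namespace Pool.Agent.Lib.MP_9f84a9_co

open Finset

private lemma F1_prn_top {N : ℕ} {X : Pt N → Prop} {A : Net N} (h : NX X A) : X A.top := by
  cases A with
  | leaf v => exact h.2 v (by simp [Net.leaves])
  | node z l r => exact h.1 z (by simp [Net.nodes])

private lemma F1_prn_left {N : ℕ} {X : Pt N → Prop} {z : Pt N} {l r : Net N}
    (h : NX X (Net.node z l r)) : NX X l :=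
  ⟨fun y hy => h.1 y (by simp [Net.nodes, hy]), fun v hv => h.2 v (by simp [Net.leaves, hv])⟩

private lemma F1_prn_right {N : ℕ} {X : Pt N → Prop} {z : Pt N} {l r : Net N}
    (h : NX X (Net.node z l r)) : NX X r :=
  ⟨fun y hy => h.1 y (by simp [Net.nodes, hy]), fun v hv => h.2 v (by simp [Net.leaves, hv])⟩

private lemma F1_prn_side (hprune : S_Fprune) {N : ℕ} {X : Pt N → Prop}
    {d : Pt N → Pt N → ℝ} (hd : PM X d) (A B : Net N) (hA : NX X A) (hB : NX X B)
    (h3 : 3 ≤ (A.leaves ++ B.leaves).length) (u : Fin N) (hu : u ∈ A.leaves) :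
    ∃ T' : Net N × Net N,
      (u :: (T'.1.leaves ++ T'.2.leaves)).Perm (A.leaves ++ B.leaves) ∧
      (∀ z ∈ T'.1.nodes ++ T'.2.nodes, z ∈ A.nodes ++ B.nodes) ∧
      Net.tlen d T' ≤ Net.tlen d (A, B) := by
  cases A with
  | leaf v =>
    have hv : u = v := by simpa [Net.leaves] using hu
    subst hv
    cases B with
    | leaf w => simp [Net.leaves] at h3
    | node z l r =>
      refine ⟨(l, r), ?_, ?_, ?_⟩
      · simp [Net.leaves]
      · intro y hy
        simp only [Net.nodes, List.nil_append, List.mem_cons]
        exact Or.inr hy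
      · have hz : X z := F1_prn_top hB
        have hl : X l.top := F1_prn_top (F1_prn_left hB)
        have hr : X r.top := F1_prn_top (F1_prn_right hB)
        have h1 := hd.tri l.top z r.top hl hz hr
        have h2 := hd.symm l.top z
        have h4 := hd.nonneg (vx u) z
        change d l.top r.top + l.len d + r.len d ≤
          d (vx u) z + 0 + (d z l.top + d z r.top + l.len d + r.len d)
        linarith
  | node z₀ l r =>
    obtain ⟨A', z, hp, -, hn, -, -, hlen⟩ :=
      hprune N X d hd (Net.node z₀ l r) hA (fun v h => by cases h) u hu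
    refine ⟨(A', B), ?_, ?_, ?_⟩
    · have := hp.append_right B.leaves
      simpa using this
    · intro y hy
      rcases List.mem_append.1 hy with hy | hy
      · exact List.mem_append.2 (Or.inl (hn y hy))
      · exact List.mem_append.2 (Or.inr hy)
    · have h1 := hlen B.top (F1_prn_top hB)
      have h2 := hd.symm B.top A'.top
      have h3' := hd.symm B.top (Net.node z₀ l r).top
      have h4 := hd.nonneg z (vx u)
      change d A'.top B.top + A'.len d + B.len d ≤
        d (Net.node z₀ l r).top B.top + (Net.node z₀ l r).len d + B.len d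
      linarith

/-- [F1 prn] -/
theorem t_Fprn (hprune : S_Fprune) : S_Fprn := by
  intro N X d T hd hA hB h3 u hu
  obtain ⟨A, B⟩ := T
  rcases List.mem_append.1 hu with hu | hu
  · exact F1_prn_side hprune hd A B hA hB h3 u hu
  · obtain ⟨T', hp, hn, hl⟩ := F1_prn_side hprune hd B A hB hA
      (by rw [List.length_append] at h3 ⊢; dsimp only at h3; omega) u hu
    refine ⟨T', hp.trans List.perm_append_comm, ?_, ?_⟩
    · intro z hz
      have := hn z hz
      rcases List.mem_append.1 this with h | h
      · exact List.mem_append.2 (Or.inr h)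
      · exact List.mem_append.2 (Or.inl h)
    · have h2 := hd.symm B.top A.top
      have hl' : Net.tlen d T' ≤ d B.top A.top + B.len d + A.len d := hl
      change Net.tlen d T' ≤ d A.top B.top + A.len d + B.len d
      linarith

end Pool.Agent.Lib.MP_9f84a9_co
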