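import Pool.Agent.Lib.MP_9f84a9_co.F.StmF1

set_option autoImplicit false

namespace Pool.Agent.Lib.MP_9f84a9_co

open Finset

private theorem F1_rep_mst {N : ℕ} (Cl : Finset ℕ) (S S' : Cfg N) (M : ℝ)
    (h : ∀ a b r, Ch S' a b r → Ch S a b r) (hS : MSTge Cl S M) : MSTge Cl S' M := by
  intro l hl hj
  exact hS l (fun t ht => h _ _ _ (hl t ht)) hj

private theorem F1_rep_mem {N : ℕ} {Cl : Finset ℕ} {P : ℝ} {pre post : Cfg N} {q : Piece N}
    {nu : List (Piece N)} (hI : InD Cl P (pre ++ q :: post)) (hR : Rpl Cl P pre post q nu) :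
    InD Cl P (pre ++ nu ++ post) := by
  refine ⟨?_, ?_, ?_, ?_⟩
  · intro x hx
    rw [List.mem_append, List.mem_append] at hx
    rcases hx with (hx | hx) | hx
    · exact hI.ok x (by simp [hx])
    · exact hR.ok x hx
    · exact hI.ok x (by simp [hx])
  · intro a ha b hb
    have h := hI.conn a ha b hb
    unfold HJ at h
    clear ha hb
    induction h with
    | refl => exact Relation.ReflTransGen.refl
    | tail _ hs ih =>
      obtain ⟨x, hx, h1, h2⟩ := hs
      refine Relation.ReflTransGen.trans ih ?_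
      rw [List.mem_append, List.mem_cons] at hx
      rcases hx with hx | hx | hx
      · exact Relation.ReflTransGen.single ⟨x, by simp [hx], h1, h2⟩
      · subst hx
        obtain ⟨u, hu, rfl⟩ := List.mem_map.1 h1
        obtain ⟨v, hv, rfl⟩ := List.mem_map.1 h2
        exact hR.jn u hu v hv
      · exact Relation.ReflTransGen.single ⟨x, by simp [hx], h1, h2⟩
  · have h1 := hI.cnt
    have h2 := hR.cnt
    simp only [List.map_append, List.map_cons, List.sum_append, List.sum_cons] at h1 h2 ⊢
    omega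
  · refine F1_rep_mst Cl _ _ 1 ?_ hI.mst
    rintro a b r ⟨x, hx, v, hv, w, hw, ha, hb, hr⟩
    rw [List.mem_append, List.mem_append] at hx
    rcases hx with (hx | hx) | hx
    · exact ⟨x, by simp [hx], v, hv, w, hw, ha, hb, hr⟩
    · obtain ⟨v', hv', w', hw', h1, h2, h3⟩ := hR.chd x hx v hv w hw
      exact ⟨q, by simp, v', hv', w', hw', h1.trans ha, h2.trans hb, h3.trans hr⟩
    · exact ⟨x, by simp [hx], v, hv, w, hw, ha, hb, hr⟩

private theorem F1_rep_mu {N : ℕ} (S : Cfg N) : mu S = (S.map Piece.mu).sum := rfl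

theorem t_Frep : S_Frep := by
  refine ⟨?_, ?_, ?_⟩
  · intro N Cl S S' M h hS
    exact F1_rep_mst Cl S S' M h hS
  · intro N Cl P pre post q nu hI hR
    exact F1_rep_mem hI hR
  · intro N Cl P pre post q nu hM hR
    have hI := F1_rep_mem hM.mem hR
    have h1 := hM.o1 _ hI
    have h2 := hM.o2 _ hI
    rw [F1_rep_mu, F1_rep_mu] at h2
    unfold Lc at h1 h2
    simp only [List.map_append, List.map_cons, List.sum_append, List.sum_cons] at h1 h2
    refine ⟨by linarith, ?_⟩
    intro h3
    have h4 := h2 (by linarith)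
    omega

end Pool.Agent.Lib.MP_9f84a9_co
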