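import Pool.Agent.Lib.MP_9f84a9_co.F.StmF1

set_option autoImplicit false

namespace Pool.Agent.Lib.MP_9f84a9_co

open Finset
open scoped Pointwise

theorem F1_sc_pos {N : ℕ} (c : ℝ) (p : Fin N → E) (x : Pt N) :
    pos (fun v => c • p v) x = c • pos p x := by
  simp only [pos, Finset.smul_sum]
  exact Finset.sum_congr rfl fun v _ => smul_comm _ _ _

theorem F1_sc_ce {N : ℕ} (c : ℝ) (hc : 0 < c) (p : Fin N → E) (x y : Pt N) :
    ce (fun v => c • p v) x y = c * ce p x y := by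
  simp only [ce, F1_sc_pos, dist_smul₀, Real.norm_eq_abs, abs_of_pos hc]

theorem F1_sc_path {N : ℕ} (c : ℝ) (hc : 0 < c) (p : Fin N → E) (K : Cx N) (x y : Pt N) (k : ℕ)
    (r : ℝ) (h : Path K (ce p) x y k r) : Path K (ce fun v => c • p v) x y k (c * r) := by
  induction h with
  | nil x hx => rw [mul_zero]; exact Path.nil x hx
  | cons x y z k r hs _ ih =>
    have := Path.cons x y z k (c * r) hs ih
    rw [F1_sc_ce c hc, ← mul_add] at this
    exact this

theorem F1_sc_path' {N : ℕ} (c : ℝ) (hc : 0 < c) (p : Fin N → E) (K : Cx N) (x y : Pt N) (k : ℕ)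
    (r : ℝ) (h : Path K (ce fun v => c • p v) x y k r) : Path K (ce p) x y k (c⁻¹ * r) := by
  have h2 := F1_sc_path c⁻¹ (inv_pos.2 hc) (fun v => c • p v) K x y k r h
  have : (fun v => c⁻¹ • c • p v) = p := by
    funext v
    rw [smul_smul, inv_mul_cancel₀ hc.ne', one_smul]
  rw [this] at h2
  exact h2

theorem F1_sc_dK {N : ℕ} (c : ℝ) (hc : 0 < c) (p : Fin N → E) (K : Cx N) (x y : Pt N) :
    dK K (ce fun v => c • p v) x y = c * dK K (ce p) x y := by
  have hset : {r : ℝ | ∃ k, Path K (ce fun v => c • p v) x y k r} =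
      c • {r : ℝ | ∃ k, Path K (ce p) x y k r} := by
    ext r
    rw [Set.mem_smul_set]
    constructor
    · rintro ⟨k, hk⟩
      refine ⟨c⁻¹ * r, ⟨k, F1_sc_path' c hc p K x y k r hk⟩, ?_⟩
      rw [smul_eq_mul, mul_inv_cancel_left₀ hc.ne']
    · rintro ⟨s, ⟨k, hk⟩, rfl⟩
      exact ⟨k, F1_sc_path c hc p K x y k s hk⟩
  unfold dK
  rw [hset, Real.sInf_smul_of_nonneg hc.le, smul_eq_mul]

theorem F1_sc_ar (c : ℝ) (u v w : E) : ar (c • u) (c • v) (c • w) = c ^ 2 * ar u v w := by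
  simp only [ar, PiLp.smul_apply, smul_eq_mul]
  ring

theorem F1_sc_wpos {N : ℕ} (c : ℝ) (p : Fin N → E) (P : PT N) : ∀ a b : Fin N,
    P.WPos p a b → P.WPos (fun v => c • p v) a b := by
  induction P with
  | nil => intro a b _; trivial
  | node w l r ihl ihr =>
    intro a b h
    refine ⟨?_, ihl a w h.2.1, ihr w b h.2.2⟩
    show 0 ≤ ar (c • p a) (c • p b) (c • p w)
    rw [F1_sc_ar]
    exact mul_nonneg (sq_nonneg _) h.1

theorem F1_sc_len {N : ℕ} (c : ℝ) (d : Pt N → Pt N → ℝ) (A : Net N) :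
    A.len (fun x y => c * d x y) = c * A.len d := by
  induction A with
  | leaf v => simp [Net.len]
  | node z l r ihl ihr =>
    simp only [Net.len, ihl, ihr]
    ring

theorem t_Fsc : S_Fsc := by
  intro N c hc p
  refine ⟨fun K x y => F1_sc_dK c hc p K x y, fun D h => ⟨F1_sc_wpos c p D.P _ _ h.1,
    F1_sc_wpos c p D.R _ _ h.2⟩, fun d T => ?_⟩
  simp only [Net.tlen, F1_sc_len]
  ring

end Pool.Agent.Lib.MP_9f84a9_co
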