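import Pool.Agent.Lib.MP_9f84a9_co.F.StmF1

/-!
Piece [GP F1 spa]: SPLIT with the leaf on the side of the first net.
-/

set_option autoImplicit false

namespace Pool.Agent.Lib.MP_9f84a9_co

open Finset

private lemma F1_spa_ok {N : ℕ} {Cl : Finset ℕ} {P : ℝ} {q : Piece N} (h : q.ok Cl P)
    (T : Net N × Net N) (h1 : ∀ z ∈ T.1.nodes ++ T.2.nodes, In q.D.K z)
    (h2 : ∀ v ∈ T.1.leaves ++ T.2.leaves, v ∈ q.D.vl) : (wT q T).ok Cl P :=
  ⟨h.dok, h.wpos, h.labs, h1, h2, h.diam⟩

private lemma F1_spa_hst {N : ℕ} {S : Cfg N} {q : Piece N} {T : Net N × Net N}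
    (h : wT q T ∈ S) {x y : Fin N} (hx : x ∈ T.1.leaves ++ T.2.leaves)
    (hy : y ∈ T.1.leaves ++ T.2.leaves) : HJ S (q.lab x) (q.lab y) := by
  refine Relation.ReflTransGen.single ⟨wT q T, h, ?_, ?_⟩
  · exact List.mem_map.2 ⟨x, hx, rfl⟩
  · exact List.mem_map.2 ⟨y, hy, rfl⟩

theorem t_Fspa (hst : S_Fst) (hpm : S_Fpm) (hprune : S_Fprune) (hrep : S_Frep)
    (hleaf : S_Fleaf) : S_Fspa := by
  intro N Cl P pre post q hM A B hE w hw hineq u hu hJ
  obtain ⟨-, -, -, hsymm, hmono, -, -⟩ := hst
  obtain ⟨hpm1, hpm2, hpm3, hpm4, hpm5⟩ := hpm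
  obtain ⟨-, -, hrep3⟩ := hrep
  have hqS : q ∈ pre ++ q :: post := by simp
  have hqok := hM.mem.ok q hqS
  obtain ⟨hPM, -, -, hT'⟩ := hpm2 N Cl P q hqok
  obtain ⟨hNA, hNB, hInA, hInB, hlv, hnd, hL⟩ := hT' (A, B) hE
  simp only at hNA hNB hInA hInB hlv hnd
  obtain ⟨-, hInv, hInv'⟩ := hpm1 N q.D q.p hqok.dok
  have hInw : In q.D.K (vx w) := hInv w hw
  have hBlv : ∀ v ∈ B.leaves, v ∈ q.D.vl := fun v hv => hInv' v (hNB.2 v hv)
  have hAlv : ∀ v ∈ A.leaves, v ∈ q.D.vl := fun v hv => hInv' v (hNA.2 v hv)
  cases hA : A with
  | leaf u' =>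
    subst hA
    have huu : u = u' := by simpa [Net.leaves] using hu
    subst huu
    refine ⟨rfl, ?_⟩
    have hR : Rpl Cl P pre post q [wT q (Net.leaf w, B)] := by
      refine ⟨?_, ?_, ?_, ?_⟩
      · intro q' hq'
        rw [List.mem_singleton] at hq'
        subst hq'
        refine F1_spa_ok hqok _ ?_ ?_
        · intro z hz
          simp only [Net.nodes, List.nil_append] at hz
          exact hNB.1 z hz
        · intro v hv
          simp only [Net.leaves, List.singleton_append, List.mem_cons] at hv
          rcases hv with rfl | hv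
          · exact hw
          · exact hBlv v hv
      · intro q' hq' v hv v' hv'
        rw [List.mem_singleton] at hq'
        subst hq'
        exact ⟨v, hv, v', hv', rfl, rfl, le_refl _⟩
      · have hmem : wT q (Net.leaf w, B) ∈ pre ++ [wT q (Net.leaf w, B)] ++ post := by simp
        have key : ∀ x ∈ q.lv, HJ (pre ++ [wT q (Net.leaf w, B)] ++ post) (q.lab x) (q.lab w) := by
          intro x hx
          have hx2 := hlv.mem_iff.1 hx
          simp only [Net.leaves, List.singleton_append, List.mem_cons] at hx2
          rcases hx2 with rfl | hx2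
          · refine hsymm N _ _ _ (hmono N _ _ _ _ ?_ hJ)
            intro r hr
            simp only [List.mem_append] at hr ⊢
            tauto
          · refine F1_spa_hst hmem ?_ ?_
            · simp [Net.leaves, hx2]
            · simp [Net.leaves]
        intro x hx y hy
        exact (key x hx).trans (hsymm N _ _ _ (key y hy))
      · have := hlv.length_eq
        simp only [Net.leaves, List.singleton_append, List.length_cons] at this
        simp only [List.map_cons, List.map_nil, List.sum_cons, List.sum_nil, Piece.lv, wT, Net.leaves,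
          List.singleton_append, List.length_cons] at this ⊢
        omega
    have h1 := (hrep3 N Cl P pre post q _ hM hR).1
    rw [hL] at h1
    have h2 : (([wT q (Net.leaf w, B)] : List (Piece N)).map Piece.L).sum
        = (q.d (vx w) B.top + 0 + B.len q.d) + 0 := rfl
    rw [h2] at h1
    have h4 : Net.tlen q.d (Net.leaf u, B) = q.d (vx u) B.top + 0 + B.len q.d := rfl
    rw [h4] at h1
    have h5 : q.d (vx u) (vx w) + q.d (vx w) B.top ≤ q.d (vx u) B.top := hineq
    have h3 := hPM.nonneg (vx u) (vx w)
    linarith
  | node z₀ l r =>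
    exfalso
    have hne : ∀ v, A ≠ Net.leaf v := by
      intro v hv
      rw [hA] at hv
      exact absurd hv (by simp)
    obtain ⟨A', z, hp1, -, hn, hz, hB, hlen⟩ := hprune N (In q.D.K) q.d hPM A hNA hne u hu
    have hA'lv : ∀ v ∈ A'.leaves, v ∈ A.leaves := fun v hv => hp1.mem_iff.1 (by simp [hv])
    have hR : Rpl Cl P pre post q [wT q (A', Net.leaf w), wT q (Net.leaf w, B)] := by
      refine ⟨?_, ?_, ?_, ?_⟩
      · intro q' hq'
        rw [List.mem_cons, List.mem_singleton] at hq'
        rcases hq' with rfl | rfl
        · refine F1_spa_ok hqok _ ?_ ?_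
          · intro x hx
            simp only [Net.nodes, List.append_nil] at hx
            exact hNA.1 x (hn x hx)
          · intro v hv
            simp only [Net.leaves, List.mem_append, List.mem_singleton] at hv
            rcases hv with hv | rfl
            · exact hAlv v (hA'lv v hv)
            · exact hw
        · refine F1_spa_ok hqok _ ?_ ?_
          · intro x hx
            simp only [Net.nodes, List.nil_append] at hx
            exact hNB.1 x hx
          · intro v hv
            simp only [Net.leaves, List.singleton_append, List.mem_cons] at hv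
            rcases hv with rfl | hv
            · exact hw
            · exact hBlv v hv
      · intro q' hq' v hv v' hv'
        rw [List.mem_cons, List.mem_singleton] at hq'
        rcases hq' with rfl | rfl
        · exact ⟨v, hv, v', hv', rfl, rfl, le_refl _⟩
        · exact ⟨v, hv, v', hv', rfl, rfl, le_refl _⟩
      · have hmem1 : wT q (A', Net.leaf w) ∈
            pre ++ [wT q (A', Net.leaf w), wT q (Net.leaf w, B)] ++ post := by simp
        have hmem2 : wT q (Net.leaf w, B) ∈
            pre ++ [wT q (A', Net.leaf w), wT q (Net.leaf w, B)] ++ post := by simp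
        have key : ∀ x ∈ q.lv, HJ (pre ++ [wT q (A', Net.leaf w), wT q (Net.leaf w, B)] ++ post)
            (q.lab x) (q.lab w) := by
          intro x hx
          have hx2 := hlv.mem_iff.1 hx
          rw [List.mem_append] at hx2
          rcases hx2 with hx2 | hx2
          · have hx3 := hp1.mem_iff.2 hx2
            rw [List.mem_cons] at hx3
            rcases hx3 with rfl | hx3
            · refine hsymm N _ _ _ (hmono N _ _ _ _ ?_ hJ)
              intro r hr
              simp only [List.mem_append] at hr ⊢
              tauto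
            · refine F1_spa_hst hmem1 ?_ ?_
              · simp [Net.leaves, hx3]
              · simp [Net.leaves]
          · refine F1_spa_hst hmem2 ?_ ?_
            · simp [Net.leaves, hx2]
            · simp [Net.leaves]
        intro x hx y hy
        exact (key x hx).trans (hsymm N _ _ _ (key y hy))
      · have e1 := hlv.length_eq
        have e2 := hp1.length_eq
        simp only [List.length_append, List.length_cons] at e1 e2
        simp only [List.map_cons, List.map_nil, List.sum_cons, List.sum_nil, Piece.lv, wT, Net.leaves,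
          List.length_cons, List.length_append, List.length_nil] at e1 ⊢
        omega
    have h1 := (hrep3 N Cl P pre post q _ hM hR).1
    rw [hL] at h1
    have h2 : (([wT q (A', Net.leaf w), wT q (Net.leaf w, B)] : List (Piece N)).map Piece.L).sum
        = (q.d A'.top (vx w) + A'.len q.d + 0) + ((q.d (vx w) B.top + 0 + B.len q.d) + 0) := rfl
    rw [h2] at h1
    have h2' : Net.tlen q.d (A, B) = q.d A.top B.top + A.len q.d + B.len q.d := rfl
    rw [h2'] at h1
    have h3 := hlen (vx w) hInw
    have h4 : 0 < q.d (vx u) z := by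
      obtain ⟨B'', hB1, hB2⟩ := hB B
      have h5 := hleaf N Cl P (pre ++ q :: post) hM q hqS (Net.leaf u, B'')
        (Relation.ReflTransGen.trans hE hB2) u rfl
      simp only at h5
      rwa [hB1] at h5
    rw [hPM.symm (vx w) A.top, hPM.symm (vx w) A'.top, hPM.symm z (vx u)] at h3
    linarith

end Pool.Agent.Lib.MP_9f84a9_co
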