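import Pool.Agent.Lib.MP_9f84a9_co.F.StmF1

/-!
# MP_9f84a9_co, module F1: piece split
-/

set_option autoImplicit false

namespace Pool.Agent.Lib.MP_9f84a9_co

open Finset

theorem t_Fsplit (hoth : S_Foth) (hpm : S_Fpm) (hspa : S_Fspa) : S_Fsplit := by
  intro N Cl P S hS q hq T' hT' w hw hle
  have hok : q.ok Cl P := hS.mem.ok q hq
  obtain ⟨pre, post, rfl⟩ := List.append_of_mem hq
  obtain ⟨hPM, _, _, hE⟩ := hpm.2.1 N Cl P q hok
  obtain ⟨_, _, _, _, hperm, _, _⟩ := hE T' hT'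
  obtain ⟨u, hu, hj⟩ := hoth N Cl pre post q (q.lab w) hS.mem.conn (fun v => hok.labs v)
    (hok.labs w)
  have hu' : u ∈ T'.1.leaves ++ T'.2.leaves := hperm.mem_iff.1 hu
  rw [List.mem_append] at hu'
  rcases hu' with h | h
  · left
    exact ⟨u, hspa N Cl P pre post q hS T'.1 T'.2 hT' w hw hle u h hj⟩
  · right
    refine ⟨u, hspa N Cl P pre post q hS T'.2 T'.1 (hT'.tail (Net.Mv.sw _ _)) w hw ?_ u h hj⟩
    rw [hPM.symm T'.2.top (vx w), hPM.symm (vx w) T'.1.top, hPM.symm T'.2.top T'.1.top, add_comm]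
    exact hle

end Pool.Agent.Lib.MP_9f84a9_co
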