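import Pool.Agent.Lib.MP_9f84a9_co.F.StmF1

set_option autoImplicit false

namespace Pool.Agent.Lib.MP_9f84a9_co

open Finset

private theorem F1_st_symm (L : List (ℕ × ℕ)) (a b : ℕ) (h : RJ L a b) : RJ L b a := by
  unfold RJ at *
  induction h with
  | refl => exact Relation.ReflTransGen.refl
  | tail _ hs ih => exact Relation.ReflTransGen.head (Or.symm hs) ih

private theorem F1_st_mono (L L' : List (ℕ × ℕ)) (a b : ℕ) (hL : ∀ e ∈ L, RJ L' e.1 e.2)
    (h : RJ L a b) : RJ L' a b := by
  unfold RJ at h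
  induction h with
  | refl => exact Relation.ReflTransGen.refl
  | tail _ hs ih =>
    rcases hs with hs | hs
    · exact Relation.ReflTransGen.trans ih (hL _ hs)
    · exact Relation.ReflTransGen.trans ih (F1_st_symm _ _ _ (hL _ hs))

private theorem F1_st_star (c : List ℕ) :
    (stl c).length = c.length - 1 ∧ (∀ e ∈ stl c, e.1 ∈ c ∧ e.2 ∈ c) ∧
      ∀ a ∈ c, ∀ b ∈ c, RJ (stl c) a b := by
  cases c with
  | nil => simp [stl]
  | cons h t =>
    have hd : ∀ a ∈ h :: t, RJ (stl (h :: t)) h a := by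
      intro a ha
      rcases List.mem_cons.1 ha with rfl | ha
      · exact Relation.ReflTransGen.refl
      · apply Relation.ReflTransGen.single
        left
        unfold stl
        exact List.mem_map.2 ⟨a, ha, rfl⟩
    refine ⟨by simp [stl], ?_, ?_⟩
    · intro e he
      unfold stl at he
      obtain ⟨a, ha, rfl⟩ := List.mem_map.1 he
      exact ⟨List.mem_cons_self, List.mem_cons_of_mem _ ha⟩
    · intro a ha b hb
      exact Relation.ReflTransGen.trans (F1_st_symm _ _ _ (hd a ha)) (hd b hb)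

private theorem F1_st_hsymm {N : ℕ} (S : Cfg N) (a b : ℕ) (h : HJ S a b) : HJ S b a := by
  unfold HJ at *
  induction h with
  | refl => exact Relation.ReflTransGen.refl
  | tail _ hs ih =>
    obtain ⟨q, hq, h1, h2⟩ := hs
    exact Relation.ReflTransGen.head ⟨q, hq, h2, h1⟩ ih

private theorem F1_st_hmono {N : ℕ} (S S' : Cfg N) (a b : ℕ) (hS : ∀ q ∈ S, q ∈ S')
    (h : HJ S a b) : HJ S' a b := by
  unfold HJ at *
  induction h with
  | refl => exact Relation.ReflTransGen.refl
  | tail _ hs ih =>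
    obtain ⟨q, hq, h1, h2⟩ := hs
    exact Relation.ReflTransGen.tail ih ⟨q, hS q hq, h1, h2⟩

private theorem F1_st_mem {N : ℕ} (S : Cfg N) (e : ℕ × ℕ) :
    e ∈ sts S ↔ ∃ q ∈ S, e ∈ stl (q.lv.map q.lab) := by
  unfold sts
  rw [List.mem_flatten]
  constructor
  · rintro ⟨l, hl, he⟩
    obtain ⟨q, hq, rfl⟩ := List.mem_map.1 hl
    exact ⟨q, hq, he⟩
  · rintro ⟨q, hq, he⟩
    exact ⟨_, List.mem_map.2 ⟨q, hq, rfl⟩, he⟩

private theorem F1_st_iff {N : ℕ} (S : Cfg N) (a b : ℕ) : HJ S a b ↔ RJ (sts S) a b := by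
  constructor
  · intro h
    unfold HJ at h
    induction h with
    | refl => exact Relation.ReflTransGen.refl
    | tail _ hs ih =>
      obtain ⟨q, hq, h1, h2⟩ := hs
      refine Relation.ReflTransGen.trans ih ?_
      refine F1_st_mono (stl (q.lv.map q.lab)) (sts S) _ _ ?_ ((F1_st_star _).2.2 _ h1 _ h2)
      intro e he
      exact Relation.ReflTransGen.single (Or.inl ((F1_st_mem S e).2 ⟨q, hq, he⟩))
  · intro h
    unfold RJ at h
    induction h with
    | refl => exact Relation.ReflTransGen.refl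
    | tail _ hs ih =>
      refine Relation.ReflTransGen.tail ih ?_
      rcases hs with hs | hs
      · obtain ⟨q, hq, he⟩ := (F1_st_mem S _).1 hs
        have := (F1_st_star _).2.1 _ he
        exact ⟨q, hq, this.1, this.2⟩
      · obtain ⟨q, hq, he⟩ := (F1_st_mem S _).1 hs
        have := (F1_st_star _).2.1 _ he
        exact ⟨q, hq, this.2, this.1⟩

private theorem F1_st_len {N : ℕ} (S : Cfg N) :
    (sts S).length = (S.map fun q => q.lv.length - 1).sum := by
  unfold sts
  induction S with
  | nil => rfl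
  | cons q S ih =>
    rw [List.map_cons, List.flatten_cons, List.length_append, ih, (F1_st_star _).1,
      List.length_map, List.map_cons, List.sum_cons]

theorem t_Fst : S_Fst := by
  refine ⟨F1_st_mono, F1_st_symm, F1_st_star, ?_, ?_, ?_, ?_⟩
  · intro N S a b h
    exact F1_st_hsymm S a b h
  · intro N S S' a b hS h
    exact F1_st_hmono S S' a b hS h
  · intro N S a b
    exact F1_st_iff S a b
  · intro N S
    refine ⟨F1_st_len S, ?_⟩
    intro e he
    obtain ⟨q, hq, he⟩ := (F1_st_mem S e).1 he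
    exact ⟨q, hq, (F1_st_star _).2.1 e he⟩

end Pool.Agent.Lib.MP_9f84a9_co
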