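import Pool.Agent.Lib.MP_9f84a9_co.F.StmF1

/-!
# MP_9f84a9_co, module F: piece star (a connected hypergraph has enough distinct leaves)
-/

set_option autoImplicit false

namespace Pool.Agent.Lib.MP_9f84a9_co

open Finset

theorem t_star (htree : S_Ftree) (hst : S_Fst) : S_star := by
  intro N Cl S hlab hHJ hne
  obtain ⟨h1, _, h3, _, _, _, _⟩ := hst
  set L : List (ℕ × ℕ) := (S.map fun q => stl ((q.lv.map q.lab).dedup)).flatten with hL
  have hmem : ∀ e, e ∈ L ↔ ∃ q ∈ S, e ∈ stl ((q.lv.map q.lab).dedup) := by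
    intro e
    simp [hL, List.mem_flatten]
  have hends : ∀ e ∈ L, e.1 ∈ Cl ∧ e.2 ∈ Cl := by
    intro e he
    obtain ⟨q, hq, he⟩ := (hmem e).1 he
    obtain ⟨e1, e2⟩ := (h3 _).2.1 e he
    rw [List.mem_dedup, List.mem_map] at e1 e2
    obtain ⟨v, _, hv⟩ := e1
    obtain ⟨w, _, hw⟩ := e2
    exact ⟨hv ▸ hlab q hq v, hw ▸ hlab q hq w⟩
  have hjoin : ∀ a ∈ Cl, ∀ b ∈ Cl, RJ L a b := by
    intro a ha b hb
    have h := hHJ a ha b hb
    unfold HJ at h
    induction h with
    | refl => exact Relation.ReflTransGen.refl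
    | tail _ hstep ih =>
      obtain ⟨q, hq, hx, hy⟩ := hstep
      refine Relation.ReflTransGen.trans (ih ?_) ?_
      · obtain ⟨v, _, hv⟩ := List.mem_map.1 hx
        exact hv ▸ hlab q hq v
      · refine h1 (stl ((q.lv.map q.lab).dedup)) L _ _ ?_
          ((h3 _).2.2 _ (List.mem_dedup.2 hx) _ (List.mem_dedup.2 hy))
        intro e he
        exact Relation.ReflTransGen.single (Or.inl ((hmem _).2 ⟨q, hq, he⟩))
  have hlen : L.length = (S.map fun q => (q.lv.map q.lab).toFinset.card - 1).sum := by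
    rw [hL, List.length_flatten, List.map_map]
    congr 1
    apply List.map_congr_left
    intro q _
    simp only [Function.comp]
    rw [(h3 _).1, List.card_toFinset]
  rw [← hlen]
  exact (htree Cl L hne hends hjoin).1

end Pool.Agent.Lib.MP_9f84a9_co
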