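import Pool.Agent.Lib.MP_9f84a9_co.F.StmF1

/-!
# MP_9f84a9_co, [F1 tree]: spanning lists of edges
-/

set_option autoImplicit false

namespace Pool.Agent.Lib.MP_9f84a9_co

open Finset

theorem F1_tree_symm {L : List (ℕ × ℕ)} {a b : ℕ} (h : RJ L a b) : RJ L b a := by
  induction h with
  | refl => exact Relation.ReflTransGen.refl
  | tail _ hs ih => exact Relation.ReflTransGen.head hs.symm ih

theorem F1_tree_mono {L L' : List (ℕ × ℕ)} (hL : ∀ e ∈ L, e ∈ L') {a b : ℕ} (h : RJ L a b) :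
    RJ L' a b := by
  induction h with
  | refl => exact Relation.ReflTransGen.refl
  | tail _ hs ih => exact Relation.ReflTransGen.tail ih (hs.imp (hL _) (hL _))

theorem F1_tree_str {L : List (ℕ × ℕ)} {e : ℕ × ℕ} {x y : ℕ} (h : RJ (e :: L) x y) :
    RJ L x y ∨ (RJ L x e.1 ∧ RJ L e.2 y) ∨ (RJ L x e.2 ∧ RJ L e.1 y) := by
  induction h with
  | refl => exact Or.inl Relation.ReflTransGen.refl
  | tail _ hs ih =>
    rename_i y' y'' _
    have hc : ((y', y'') ∈ L ∨ (y'', y') ∈ L) ∨ (y' = e.1 ∧ y'' = e.2) ∨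
        (y'' = e.1 ∧ y' = e.2) := by
      rcases hs with hs | hs
      · rcases List.mem_cons.mp hs with h1 | h1
        · exact Or.inr (Or.inl ⟨by rw [← h1], by rw [← h1]⟩)
        · exact Or.inl (Or.inl h1)
      · rcases List.mem_cons.mp hs with h1 | h1
        · exact Or.inr (Or.inr ⟨by rw [← h1], by rw [← h1]⟩)
        · exact Or.inl (Or.inr h1)
    rcases hc with hc | ⟨h1, h2⟩ | ⟨h1, h2⟩
    · rcases ih with ih | ⟨i1, i2⟩ | ⟨i1, i2⟩
      · exact Or.inl (Relation.ReflTransGen.tail ih hc)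
      · exact Or.inr (Or.inl ⟨i1, Relation.ReflTransGen.tail i2 hc⟩)
      · exact Or.inr (Or.inr ⟨i1, Relation.ReflTransGen.tail i2 hc⟩)
    · subst h1 h2
      rcases ih with ih | ⟨i1, i2⟩ | ⟨i1, i2⟩
      · exact Or.inr (Or.inl ⟨ih, Relation.ReflTransGen.refl⟩)
      · exact Or.inr (Or.inl ⟨i1, Relation.ReflTransGen.refl⟩)
      · exact Or.inl i1
    · subst h1 h2
      rcases ih with ih | ⟨i1, i2⟩ | ⟨i1, i2⟩
      · exact Or.inr (Or.inr ⟨ih, Relation.ReflTransGen.refl⟩)
      · exact Or.inl i1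
      · exact Or.inr (Or.inr ⟨i1, Relation.ReflTransGen.refl⟩)

theorem F1_tree_nil {x y : ℕ} (h : RJ [] x y) : x = y := by
  induction h with
  | refl => rfl
  | tail _ hs ih => simp at hs

theorem F1_tree_A (V : Finset ℕ) : ∀ L : List (ℕ × ℕ), ∃ R ⊆ V,
    (∀ x ∈ R, ∀ y ∈ R, RJ L x y → x = y) ∧ V.card ≤ L.length + R.card := by
  intro L
  induction L with
  | nil => exact ⟨V, subset_refl _, fun x _ y _ h => F1_tree_nil h, by simp⟩
  | cons e L ih =>
    obtain ⟨R, hR, h1, h2⟩ := ih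
    by_cases hex : ∃ ρ ∈ R, RJ L ρ e.2
    · obtain ⟨ρ, hρ, hj⟩ := hex
      refine ⟨R.erase ρ, (Finset.erase_subset _ _).trans hR, ?_, ?_⟩
      · intro x hx y hy hxy
        obtain ⟨hx1, hx2⟩ := Finset.mem_erase.mp hx
        obtain ⟨hy1, hy2⟩ := Finset.mem_erase.mp hy
        rcases F1_tree_str hxy with h | ⟨h3, h4⟩ | ⟨h3, h4⟩
        · exact h1 x hx2 y hy2 h
        · exact absurd (h1 y hy2 ρ hρ
            (Relation.ReflTransGen.trans (F1_tree_symm h4) (F1_tree_symm hj))) hy1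
        · exact absurd (h1 x hx2 ρ hρ (Relation.ReflTransGen.trans h3 (F1_tree_symm hj))) hx1
      · have h3 := Finset.card_erase_add_one hρ
        simp only [List.length_cons]
        omega
    · refine ⟨R, hR, ?_, ?_⟩
      · intro x hx y hy hxy
        rcases F1_tree_str hxy with h | ⟨h3, h4⟩ | ⟨h3, h4⟩
        · exact h1 x hx y hy h
        · exact absurd ⟨y, hy, F1_tree_symm h4⟩ hex
        · exact absurd ⟨x, hx, h3⟩ hex
      · simp only [List.length_cons]
        omega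

theorem F1_tree_B (V : Finset ℕ) : ∀ L : List (ℕ × ℕ), (∀ e ∈ L, e.1 ∈ V ∧ e.2 ∈ V) →
    ∃ L' : List (ℕ × ℕ), L'.Sublist L ∧ (∀ x y, RJ L x y → RJ L' x y) ∧
      ∃ R ⊆ V, (∀ v ∈ V, ∃ ρ ∈ R, RJ L' v ρ) ∧ L'.length + R.card ≤ V.card := by
  intro L
  induction L with
  | nil =>
    intro _
    exact ⟨[], List.Sublist.refl _, fun x y h => h, V, subset_refl _,
      fun v hv => ⟨v, hv, Relation.ReflTransGen.refl⟩, by simp⟩
  | cons e L ih =>
    intro hV
    obtain ⟨L', hs, hj, R, hR, h1, h2⟩ := ih fun e' he' => hV e' (List.mem_cons_of_mem _ he')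
    obtain ⟨he1, he2⟩ := hV e List.mem_cons_self
    by_cases hc : RJ L' e.1 e.2
    · refine ⟨L', hs.cons _, ?_, R, hR, h1, h2⟩
      intro x y hxy
      rcases F1_tree_str hxy with h | ⟨h3, h4⟩ | ⟨h3, h4⟩
      · exact hj x y h
      · exact Relation.ReflTransGen.trans (Relation.ReflTransGen.trans (hj _ _ h3) hc) (hj _ _ h4)
      · exact Relation.ReflTransGen.trans
          (Relation.ReflTransGen.trans (hj _ _ h3) (F1_tree_symm hc)) (hj _ _ h4)
    · obtain ⟨r1, hr1, hj1⟩ := h1 _ he1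
      obtain ⟨r2, hr2, hj2⟩ := h1 _ he2
      have hne : r1 ≠ r2 := by
        rintro rfl
        exact hc (Relation.ReflTransGen.trans hj1 (F1_tree_symm hj2))
      have hup : ∀ {x y : ℕ}, RJ L' x y → RJ (e :: L') x y := fun h =>
        F1_tree_mono (fun _ he' => List.mem_cons_of_mem _ he') h
      have hst : RJ (e :: L') e.1 e.2 :=
        Relation.ReflTransGen.single (Or.inl List.mem_cons_self)
      refine ⟨e :: L', hs.cons_cons _, ?_, R.erase r2, (Finset.erase_subset _ _).trans hR, ?_, ?_⟩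
      · intro x y hxy
        rcases F1_tree_str hxy with h | ⟨h3, h4⟩ | ⟨h3, h4⟩
        · exact hup (hj x y h)
        · exact Relation.ReflTransGen.trans
            (Relation.ReflTransGen.trans (hup (hj _ _ h3)) hst) (hup (hj _ _ h4))
        · exact Relation.ReflTransGen.trans
            (Relation.ReflTransGen.trans (hup (hj _ _ h3)) (F1_tree_symm hst)) (hup (hj _ _ h4))
      · intro v hv
        obtain ⟨r, hr, hvr⟩ := h1 v hv
        by_cases hr2 : r = r2
        · subst hr2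
          refine ⟨r1, Finset.mem_erase.mpr ⟨hne, hr1⟩, ?_⟩
          exact Relation.ReflTransGen.trans (Relation.ReflTransGen.trans (Relation.ReflTransGen.trans
            (hup hvr) (F1_tree_symm (hup hj2))) (F1_tree_symm hst)) (hup hj1)
        · exact ⟨r, Finset.mem_erase.mpr ⟨hr2, hr⟩, hup hvr⟩
      · have h3 := Finset.card_erase_add_one hr2
        simp only [List.length_cons]
        omega

theorem F1_tree_sub {L' L : List (ℕ × ℕ)} (h : L'.Sublist L) : L'.length < L.length →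
    ∃ (L₁ : List (ℕ × ℕ)) (e : ℕ × ℕ) (L₂ : List (ℕ × ℕ)),
      L = L₁ ++ e :: L₂ ∧ L'.Sublist (L₁ ++ L₂) := by
  induction h with
  | slnil => intro h; simp at h
  | cons a h _ => intro _; exact ⟨[], a, _, rfl, h⟩
  | cons_cons a h ih =>
    intro hl
    simp only [List.length_cons] at hl
    obtain ⟨L₁, e, L₂, h1, h2⟩ := ih (by omega)
    exact ⟨a :: L₁, e, L₂, by rw [h1]; rfl, h2.cons_cons a⟩

theorem t_Ftree : S_Ftree := by
  intro V L hne hV hj
  constructor
  · obtain ⟨R, hR, h1, h2⟩ := F1_tree_A V L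
    have h3 : R.card ≤ 1 := by
      rw [Finset.card_le_one]
      intro a ha b hb
      exact h1 a ha b hb (hj a (hR ha) b (hR hb))
    omega
  · intro hle
    obtain ⟨L', hs, hj', R, hR, h1, h2⟩ := F1_tree_B V L hV
    obtain ⟨v, hv⟩ := hne
    obtain ⟨r, hr, _⟩ := h1 v hv
    have h3 : 0 < R.card := Finset.card_pos.mpr ⟨r, hr⟩
    obtain ⟨L₁, e, L₂, h4, h5⟩ := F1_tree_sub hs (by omega)
    refine ⟨L₁, e, L₂, h4, ?_⟩
    intro a ha b hb
    exact F1_tree_mono (fun _ he' => h5.subset he') (hj' a b (hj a ha b hb))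

end Pool.Agent.Lib.MP_9f84a9_co
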