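import Pool.Agent.Lib.MP_9f84a9_co.F.StmF1

/-!
# MP_9f84a9_co, piece F1 two: a piece with two leaves is a segment
-/

set_option autoImplicit false

namespace Pool.Agent.Lib.MP_9f84a9_co

open Finset

theorem F1_two_leaf {N : ℕ} (hlen : ∀ A : Net N, 1 ≤ A.leaves.length) (A : Net N)
    (h : A.leaves.length ≤ 1) : ∃ u, A = Net.leaf u := by
  cases A with
  | leaf v => exact ⟨v, rfl⟩
  | node z l r =>
    exfalso
    simp only [Net.leaves, List.length_append] at h
    have h1 := hlen l
    have h2 := hlen r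
    omega

theorem F1_two_L {N : ℕ} (hpm : S_Fpm) (Cl : Finset ℕ) (P : ℝ) (q : Piece N) (h : q.ok Cl P) :
    0 ≤ q.L := by
  obtain ⟨-, hp2, -, hp4, -⟩ := hpm
  obtain ⟨hPM, -, -, -⟩ := hp2 N Cl P q h
  unfold Piece.L Net.tlen
  have a1 := hPM.nonneg q.T.1.top q.T.2.top
  have a2 := hp4 N _ q.d q.T.1 hPM
  have a3 := hp4 N _ q.d q.T.2 hPM
  linarith

theorem F1_two_vs {N : ℕ} (Q : PT N) (h : Q.vs.length = 0) : Q = PT.nil := by
  cases Q with
  | nil => rfl
  | node w l r => simp [PT.vs] at h

/-- [F1 two] -/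
theorem t_Ftwo (h1 : S_A1) (h2 : S_A2) (h3 : S_A3) (hb5 : S_B5) (hpm : S_Fpm) (hrep : S_Frep)
    (hcls : S_Fcls) : S_Ftwo := by
  intro N Cl P S hM q hq hlen
  have hnn := F1_two_L hpm Cl P (N := N)
  obtain ⟨hp1, hp2, -, hp4, hp5⟩ := hpm
  obtain ⟨-, -, hr3⟩ := hrep
  have hqok : q.ok Cl P := hM.mem.ok q hq
  obtain ⟨hPM, -, -, -⟩ := hp2 N Cl P q hqok
  -- the two leaves
  have hl1 := hp5 N q.T.1
  have hl2 := hp5 N q.T.2
  have hlen' : q.T.1.leaves.length + q.T.2.leaves.length = 2 := by
    have := hlen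
    simpa [Piece.lv] using this
  obtain ⟨u, hu⟩ := F1_two_leaf (hp5 N) q.T.1 (by omega)
  obtain ⟨v, hv⟩ := F1_two_leaf (hp5 N) q.T.2 (by omega)
  have hlv : q.lv = [u, v] := by simp [Piece.lv, hu, hv, Net.leaves]
  have huv : u ≠ v := by
    intro h
    have := hcls N Cl P S hM.mem q hq
    rw [hlv, h] at this
    simp at this
  have hul : u ∈ q.D.vl := hqok.lvs u (by rw [hlv]; simp)
  have hvl : v ∈ q.D.vl := hqok.lvs v (by rw [hlv]; simp)
  -- the length
  obtain ⟨pre, post, hS⟩ := List.append_of_mem hq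
  set r := q.d (vx u) (vx v) with hr
  have hr0 : 0 ≤ r := hPM.nonneg _ _
  have hL : q.L = r := by
    simp [Piece.L, Net.tlen, hu, hv, Net.len, Net.top, hr]
  have hLS : q.L ≤ Lc S := by
    unfold Lc
    refine List.single_le_sum (l := S.map Piece.L) ?_ _ (List.mem_map.2 ⟨q, hq, rfl⟩)
    intro x hx
    obtain ⟨q', hq', rfl⟩ := List.mem_map.1 hx
    exact hnn q' (hM.mem.ok q' hq')
  have hr1 : r ≤ P := by
    have a1 := hM.lt
    have a2 := hM.hP
    have a3 : Real.sqrt 3 / 2 ≤ 1 := by
      have : Real.sqrt 3 ≤ 2 := by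
        rw [Real.sqrt_le_left (by norm_num)]
        norm_num
      linarith
    linarith
  -- the new piece
  set D' : Dsc N := ⟨u, v, PT.nil, PT.nil⟩ with hD'
  set p' : Fin N → E := fun x => if x = u then 0 else EuclideanSpace.single 0 r with hp'
  set q' : Piece N := ⟨D', p', q.lab, q.T⟩ with hq'
  have hK' : D'.K = {{u, v}} := by simp [Dsc.K, hD']
  have hvl' : D'.vl = [u, v] := by simp [Dsc.vl, hD', PT.vs]
  have hD'ok : D'.ok := by
    unfold Dsc.ok
    rw [hvl']
    simp [huv]
  have hpu : p' u = 0 := by simp [hp']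
  have hpv : p' v = EuclideanSpace.single 0 r := by simp [hp', huv.symm]
  have hdist : dist (p' u) (p' v) = r := by
    rw [hpu, hpv, dist_zero_left, EuclideanSpace.norm_single, Real.norm_eq_abs, abs_of_nonneg hr0]
  obtain ⟨hc, -, -, -, h15, h16, -, -, -⟩ := h1 N
  have hCn : Cn D'.K := hb5 N D' hD'ok
  have hmem : ({u, v} : Finset (Fin N)) ∈ D'.K := by rw [hK']; simp
  have hIu := h15 D'.K {u, v} u hmem (by simp)
  have hIv := h15 D'.K {u, v} v hmem (by simp)
  have hStp : Stp D'.K (vx u) (vx v) := ⟨hIu.1, hIv.1, {u, v}, hmem, hIu.2, hIv.2⟩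
  obtain ⟨n1, n2, n3, -, n5⟩ := h2 N D'.K (ce p') (hc p') hCn
  have hce : ce p' (vx u) (vx v) = r := by
    unfold ce
    rw [h16, h16, hdist]
  have hle : dK D'.K (ce p') (vx u) (vx v) ≤ r := by
    rw [← hce]
    exact n5 _ _ hStp
  have hge : r ≤ dK D'.K (ce p') (vx u) (vx v) := by
    rw [← hce]
    refine h3 N D'.K (ce p') (ce p') hCn ?_ ?_ ?_ _ _ hIu.1 hIv.1
    · intro x _
      exact le_of_eq ((hc p').self x)
    · intro x y z _ _ _
      exact (hc p').tri x y z
    · intro x y _
      exact le_refl _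
  have hq'ok : q'.ok Cl P := by
    refine ⟨hD'ok, ⟨trivial, trivial⟩, hqok.labs, ?_, ?_, ?_⟩
    · intro z hz
      have : q'.nd = [] := by simp [Piece.nd, hq', hu, hv, Net.nodes]
      rw [this] at hz
      simp at hz
    · intro w hw
      have : q'.lv = [u, v] := hlv
      rw [this] at hw
      show w ∈ D'.vl
      rw [hvl']
      exact hw
    · intro a ha b hb
      have ha' : a = u ∨ a = v := by
        have : a ∈ D'.vl := ha
        rw [hvl'] at this
        simpa using this
      have hb' : b = u ∨ b = v := by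
        have : b ∈ D'.vl := hb
        rw [hvl'] at this
        simpa using this
      show dist (p' a) (p' b) ≤ P
      have hP0 : 0 ≤ P := le_trans hr0 hr1
      rcases ha' with rfl | rfl <;> rcases hb' with rfl | rfl
      · rw [dist_self]; exact hP0
      · rw [hdist]; exact hr1
      · rw [dist_comm, hdist]; exact hr1
      · rw [dist_self]; exact hP0
  have hRpl : Rpl Cl P pre post q [q'] := by
    refine ⟨?_, ?_, ?_, ?_⟩
    · intro x hx
      rw [List.mem_singleton] at hx
      rw [hx]
      exact hq'ok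
    · intro x hx a ha b hb
      rw [List.mem_singleton] at hx
      subst hx
      have ha' : a = u ∨ a = v := by
        have : a ∈ D'.vl := ha
        rw [hvl'] at this
        simpa using this
      have hb' : b = u ∨ b = v := by
        have : b ∈ D'.vl := hb
        rw [hvl'] at this
        simpa using this
      have hIn : ∀ w, w ∈ q.D.vl → In q.D.K (vx w) := (hp1 N q.D q.p hqok.dok).2.1
      refine ⟨a, ?_, b, ?_, rfl, rfl, ?_⟩
      · rcases ha' with rfl | rfl
        · exact hul
        · exact hvl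
      · rcases hb' with rfl | rfl
        · exact hul
        · exact hvl
      · show q.d (vx a) (vx b) ≤ dK D'.K (ce p') (vx a) (vx b)
        rcases ha' with rfl | rfl <;> rcases hb' with rfl | rfl
        · rw [hPM.refl _ (hIn _ hul)]
          exact n1 _ _
        · exact hge
        · rw [hPM.symm, n3]
          exact hge
        · rw [hPM.refl _ (hIn _ hvl)]
          exact n1 _ _
    · intro a ha b hb
      refine Relation.ReflTransGen.single ⟨q', by simp, ?_, ?_⟩
      · exact List.mem_map.2 ⟨a, ha, rfl⟩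
      · exact List.mem_map.2 ⟨b, hb, rfl⟩
    · simp only [List.map_cons, List.map_nil, List.sum_cons, List.sum_nil, Nat.add_zero]
      exact le_refl _
  rw [hS] at hM
  have hfin := (hr3 N Cl P pre post q [q'] hM hRpl).2
  have hL' : q'.L ≤ r := by
    have : q'.L = dK D'.K (ce p') (vx u) (vx v) := by
      simp [Piece.L, Net.tlen, hq', hu, hv, Net.len, Net.top, Piece.d]
    rw [this]
    exact hle
  have hmu := hfin (by simpa [hL] using hL')
  have hmu' : q.mu ≤ q'.mu := by simpa using hmu
  have e1 : q.mu = q.D.vl.length - 1 := by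
    simp [Piece.mu, hlen]
  have e2 : q'.mu = 1 := by
    have a1 : q'.lv.length = 2 := hlen
    have a2 : q'.D.vl.length = 2 := by
      show D'.vl.length = 2
      rw [hvl']
      rfl
    simp [Piece.mu, a1, a2]
  rw [e1, e2] at hmu'
  have e3 : q.D.vl.length = 2 + q.D.P.vs.length + q.D.R.vs.length := by
    simp only [Dsc.vl, List.length_cons, List.length_append]
    omega
  exact ⟨F1_two_vs _ (by omega), F1_two_vs _ (by omega)⟩

end Pool.Agent.Lib.MP_9f84a9_co
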