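import Pool.Agent.Lib.MP_9f84a9_co.F.StmF1

/-!
# MP_9f84a9_co, section 3, piece [F1 cat]: locating an element in a flattened list
-/

set_option autoImplicit false

namespace Pool.Agent.Lib.MP_9f84a9_co

open Finset

theorem t_Fcat : S_Fcat := by
  intro α Ls
  induction Ls with
  | nil =>
    intro L₁ L₂ e h
    rw [List.flatten_nil] at h
    have h2 := congrArg List.length h
    simp at h2
  | cons c Ls ih =>
    intro L₁ L₂ e h
    rw [List.flatten_cons, List.append_eq_append_iff] at h
    rcases h with ⟨as, h1, h2⟩ | ⟨bs, h1, h2⟩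
    · obtain ⟨pre, c₁, c₂, post, h3, h4, h5⟩ := ih as L₂ e h2
      refine ⟨c :: pre, c₁, c₂, post, ?_, ?_, h5⟩
      · rw [h3, List.cons_append]
      · rw [h1, h4, List.flatten_cons, List.append_assoc]
    · cases bs with
      | nil =>
        rw [List.append_nil] at h1
        rw [List.nil_append] at h2
        obtain ⟨pre, c₁, c₂, post, h3, h4, h5⟩ := ih [] L₂ e (by rw [List.nil_append, h2])
        refine ⟨c :: pre, c₁, c₂, post, ?_, ?_, h5⟩
        · rw [h3, List.cons_append]
        · rw [List.flatten_cons, List.append_assoc, ← h4, List.append_nil, h1]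
      | cons b bs =>
        rw [List.cons_append, List.cons.injEq] at h2
        obtain ⟨h2, h3⟩ := h2
        refine ⟨[], L₁, bs, Ls, ?_, ?_, h3⟩
        · rw [List.nil_append, h1, h2]
        · rw [List.flatten_nil, List.nil_append]

end Pool.Agent.Lib.MP_9f84a9_co
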