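import Pool.Agent.Lib.MP_9f84a9_co.F.StmF1

/-!
# MP_9f84a9_co, [F1 map]: image of a network under a 1-Lipschitz map
-/

set_option autoImplicit false

namespace Pool.Agent.Lib.MP_9f84a9_co

open Finset

theorem F1_map_top {N : ℕ} (X : Pt N → Prop) (A : Net N) (h : NX X A) : X A.top := by
  cases A with
  | leaf v => exact h.2 v (by simp [Net.leaves])
  | node z l r => exact h.1 z (by simp [Net.nodes])

theorem F1_map_nx {N : ℕ} (X : Pt N → Prop) (z : Pt N) (l r : Net N)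
    (h : NX X (Net.node z l r)) : X z ∧ NX X l ∧ NX X r := by
  refine ⟨h.1 z (by simp [Net.nodes]), ⟨fun x hx => h.1 x ?_, fun v hv => h.2 v ?_⟩,
    ⟨fun x hx => h.1 x ?_, fun v hv => h.2 v ?_⟩⟩
  · simp [Net.nodes, hx]
  · simp [Net.leaves, hv]
  · simp [Net.nodes, hx]
  · simp [Net.leaves, hv]

theorem F1_map_basic {N : ℕ} (F : Pt N → Pt N) (ν : Fin N → Fin N) (A : Net N) :
    (Net.mp F ν A).leaves = A.leaves.map ν ∧ (Net.mp F ν A).nodes = A.nodes.map F ∧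
      (Net.mp F ν A).fl = ν A.fl := by
  induction A with
  | leaf v => simp [Net.mp, Net.leaves, Net.nodes, Net.fl]
  | node z l r ihl ihr =>
    obtain ⟨h1, h2, h3⟩ := ihl
    obtain ⟨h4, h5, h6⟩ := ihr
    refine ⟨?_, ?_, ?_⟩
    · simp [Net.mp, Net.leaves, h1, h4]
    · simp [Net.mp, Net.nodes, h2, h5]
    · simp [Net.mp, Net.fl, h3]

theorem F1_map_ptop {N : ℕ} (F : Pt N → Pt N) (ν : Fin N → Fin N) (X X' : Pt N → Prop)
    (d' : Pt N → Pt N → ℝ) (hd : PM X' d') (hX : ∀ x, X x → X' (F x)) (A : Net N)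
    (hA : NX X A) (hl : ∀ v ∈ A.leaves, X' (vx (ν v)) ∧ d' (F (vx v)) (vx (ν v)) = 0) :
    X' (Net.mp F ν A).top ∧ X' (F A.top) ∧ d' (F A.top) (Net.mp F ν A).top = 0 := by
  cases A with
  | leaf v =>
    obtain ⟨h1, h2⟩ := hl v (by simp [Net.leaves])
    exact ⟨h1, hX _ (hA.2 v (by simp [Net.leaves])), h2⟩
  | node z l r =>
    have h1 : X' (F z) := hX _ (F1_map_nx X z l r hA).1
    exact ⟨h1, h1, hd.refl _ h1⟩

theorem F1_map_step {N : ℕ} (F : Pt N → Pt N) (ν : Fin N → Fin N) (X X' : Pt N → Prop)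
    (d d' : Pt N → Pt N → ℝ) (hd : PM X' d') (hX : ∀ x, X x → X' (F x))
    (hL : ∀ x y, X x → X y → d' (F x) (F y) ≤ d x y) (z : Pt N) (hz : X z) (A : Net N)
    (hA : NX X A) (hl : ∀ v ∈ A.leaves, X' (vx (ν v)) ∧ d' (F (vx v)) (vx (ν v)) = 0) :
    d' (F z) (Net.mp F ν A).top ≤ d z A.top := by
  obtain ⟨h1, h2, h3⟩ := F1_map_ptop F ν X X' d' hd hX A hA hl
  have h4 := hd.tri (F z) (F A.top) (Net.mp F ν A).top (hX z hz) h2 h1
  have h5 := hL z A.top hz (F1_map_top X A hA)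
  linarith

theorem F1_map_len {N : ℕ} (F : Pt N → Pt N) (ν : Fin N → Fin N) (X X' : Pt N → Prop)
    (d d' : Pt N → Pt N → ℝ) (hd : PM X' d') (hX : ∀ x, X x → X' (F x))
    (hL : ∀ x y, X x → X y → d' (F x) (F y) ≤ d x y) (A : Net N) (hA : NX X A)
    (hl : ∀ v ∈ A.leaves, X' (vx (ν v)) ∧ d' (F (vx v)) (vx (ν v)) = 0) :
    (Net.mp F ν A).len d' ≤ A.len d := by
  induction A with
  | leaf v => simp [Net.mp, Net.len]
  | node z l r ihl ihr =>
    obtain ⟨hz, hNl, hNr⟩ := F1_map_nx X z l r hA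
    have hll : ∀ v ∈ l.leaves, X' (vx (ν v)) ∧ d' (F (vx v)) (vx (ν v)) = 0 :=
      fun v hv => hl v (by simp [Net.leaves, hv])
    have hlr : ∀ v ∈ r.leaves, X' (vx (ν v)) ∧ d' (F (vx v)) (vx (ν v)) = 0 :=
      fun v hv => hl v (by simp [Net.leaves, hv])
    have h1 := ihl hNl hll
    have h2 := ihr hNr hlr
    have h3 := F1_map_step F ν X X' d d' hd hX hL z hz l hNl hll
    have h4 := F1_map_step F ν X X' d d' hd hX hL z hz r hNr hlr
    show d' (F z) (Net.mp F ν l).top + d' (F z) (Net.mp F ν r).top + (Net.mp F ν l).len d' +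
      (Net.mp F ν r).len d' ≤ d z l.top + d z r.top + l.len d + r.len d
    linarith

theorem t_Fmap : S_Fmap := by
  intro N F ν
  refine ⟨F1_map_basic F ν, ?_⟩
  intro X X' d d' hd hX hL T hT1 hT2 hl
  have hl1 : ∀ v ∈ T.1.leaves, X' (vx (ν v)) ∧ d' (F (vx v)) (vx (ν v)) = 0 :=
    fun v hv => hl v (by simp [hv])
  have hl2 : ∀ v ∈ T.2.leaves, X' (vx (ν v)) ∧ d' (F (vx v)) (vx (ν v)) = 0 :=
    fun v hv => hl v (by simp [hv])
  have h1 := F1_map_len F ν X X' d d' hd hX hL T.1 hT1 hl1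
  have h2 := F1_map_len F ν X X' d d' hd hX hL T.2 hT2 hl2
  obtain ⟨a1, a2, a3⟩ := F1_map_ptop F ν X X' d' hd hX T.1 hT1 hl1
  obtain ⟨b1, b2, b3⟩ := F1_map_ptop F ν X X' d' hd hX T.2 hT2 hl2
  have h3 := F1_map_step F ν X X' d d' hd hX hL T.1.top (F1_map_top X T.1 hT1) T.2 hT2 hl2
  have h4 := hd.tri (Net.mp F ν T.1).top (F T.1.top) (Net.mp F ν T.2).top a1 a2 b1
  rw [hd.symm (Net.mp F ν T.1).top (F T.1.top), a3] at h4
  show d' (Net.mp F ν T.1).top (Net.mp F ν T.2).top + (Net.mp F ν T.1).len d' +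
    (Net.mp F ν T.2).len d' ≤ d T.1.top T.2.top + T.1.len d + T.2.len d
  linarith

end Pool.Agent.Lib.MP_9f84a9_co
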