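import Pool.Agent.Lib.MP_9f84a9_co.F.StmF1

/-!
# MP_9f84a9_co, module F, first half: `S_Fnode` (nodes are at positive distance from all vertices)
-/

set_option autoImplicit false

namespace Pool.Agent.Lib.MP_9f84a9_co

open Finset

theorem t_Fnode (hx3 : S_X3) (hpm : S_Fpm) (hleaf : S_Fleaf) (hsplit : S_Fsplit) : S_Fnode := by
  intro N Cl P S hM q hq z hz w hw
  obtain ⟨hpmD, hpmq, _, _, _⟩ := hpm
  have hok : q.ok Cl P := hM.mem.ok q hq
  obtain ⟨hPM, _, _, hall⟩ := hpmq N Cl P q hok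
  obtain ⟨_, _, _, h4, _⟩ := hx3 N q.T q.T Relation.ReflTransGen.refl
  obtain ⟨T', hT', htop, l, r, hlr⟩ := h4 z hz
  obtain ⟨_, _, hz1, hz2, _, _, _⟩ := hall T' hT'
  have hwIn : In q.D.K (vx w) := (hpmD N q.D q.p hok.dok).2.1 w hw
  by_contra hcon
  have h0 : q.d z (vx w) = 0 := le_antisymm (not_lt.mp hcon) (hPM.nonneg _ _)
  have hzIn : In q.D.K z := htop ▸ hz1
  have hs : q.d T'.1.top (vx w) + q.d (vx w) T'.2.top ≤ q.d T'.1.top T'.2.top := by
    rw [htop, h0]
    have := hPM.tri (vx w) z T'.2.top hwIn hzIn hz2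
    rw [hPM.symm (vx w) z, h0] at this
    linarith
  rcases hsplit N Cl P S hM q hq T' hT' w hw hs with ⟨u, hu, _⟩ | ⟨u, hu, hu0⟩
  · rw [hlr] at hu; exact Net.noConfusion rfl (heq_of_eq hu)
  · have hsw : Net.Eqv q.T (T'.2, T'.1) := by
      refine Relation.ReflTransGen.tail hT' ?_
      exact Net.Mv.sw T'.1 T'.2
    have hpos := hleaf N Cl P S hM q hq (T'.2, T'.1) hsw u hu
    simp only [htop] at hpos
    have huIn : In q.D.K (vx u) := by
      have := hz2; rw [hu] at this; exact this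
    have := hPM.tri (vx u) (vx w) z huIn hwIn hzIn
    rw [hu0, hPM.symm (vx w) z, h0] at this
    linarith

end Pool.Agent.Lib.MP_9f84a9_co
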