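import Pool.Agent.Lib.MP_9f84a9_co.F.StmF1

/-! MP_9f84a9_co (Gilbert-Pollak), [F1 path]: walking from the leaf `x` to the leaf `y`. -/

set_option autoImplicit false

namespace Pool.Agent.Lib.MP_9f84a9_co

open Finset

theorem F1_path_claim {N : ℕ} (Q : Pt N → Prop) (x y : Fin N) (hy : ¬ Q (vx y)) (B : Net N) :
    ∀ A : Net N, Q A.top → (A = Net.leaf x ∨ ∃ z l r, A = Net.node z l r) → y ∈ B.leaves →
    ∃ T', Net.Eqv (A, B) T' ∧ Q T'.1.top ∧ ¬ Q T'.2.top ∧
      (T'.1 = Net.leaf x ∨ ∃ z l r, T'.1 = Net.node z l r) ∧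
      (T'.2 = Net.leaf y ∨ ∃ z l r, T'.2 = Net.node z l r) := by
  induction B with
  | leaf y' =>
    intro A hA hA' hyB
    have h : y = y' := by simpa [Net.leaves] using hyB
    subst h
    exact ⟨(A, Net.leaf y), Relation.ReflTransGen.refl, hA, hy, hA', Or.inl rfl⟩
  | node z l r ihl ihr =>
    intro A hA hA' hyB
    by_cases hz : Q z
    · have h : y ∈ l.leaves ∨ y ∈ r.leaves := by
        simpa [Net.leaves] using hyB
      rcases h with h | h
      · obtain ⟨T', hT, h1, h2, h3, h4⟩ :=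
          ihl (Net.node z r A) hz (Or.inr ⟨z, r, A, rfl⟩) h
        refine ⟨T', ?_, h1, h2, h3, h4⟩
        exact Relation.ReflTransGen.head (Net.Mv.sw A (Net.node z l r))
          (Relation.ReflTransGen.head (Net.Mv.lf z l r A)
            (Relation.ReflTransGen.head (Net.Mv.sw l (Net.node z r A)) hT))
      · obtain ⟨T', hT, h1, h2, h3, h4⟩ :=
          ihr (Net.node z l A) hz (Or.inr ⟨z, l, A, rfl⟩) h
        refine ⟨T', ?_, h1, h2, h3, h4⟩
        exact Relation.ReflTransGen.head (Net.Mv.sw A (Net.node z l r))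
          (Relation.ReflTransGen.head (Net.Mv.rt z l r A)
            (Relation.ReflTransGen.head (Net.Mv.sw r (Net.node z l A)) hT))
    · exact ⟨(A, Net.node z l r), Relation.ReflTransGen.refl, hA, hz, hA',
        Or.inr ⟨z, l, r, rfl⟩⟩

theorem t_Fpath (hx3 : S_X3) : S_Fpath := by
  intro N T Q x y hx hy hQx hQy
  obtain ⟨T'', hT'', hT1⟩ := (hx3 N T T Relation.ReflTransGen.refl).2.2.2.2 x hx
  have hperm := (hx3 N T T'' hT'').1
  have hy' : y ∈ T''.1.leaves ++ T''.2.leaves := hperm.mem_iff.1 hy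
  have hne : y ≠ x := by
    rintro rfl
    exact hQy hQx
  have hy2 : y ∈ T''.2.leaves := by
    rw [hT1] at hy'
    rcases List.mem_append.1 hy' with h | h
    · exact absurd (by simpa [Net.leaves] using h) hne
    · exact h
  obtain ⟨T', hT, h1, h2, h3, h4⟩ := F1_path_claim Q x y hQy T''.2 T''.1
    (by rw [hT1]; exact hQx) (Or.inl hT1) hy2
  exact ⟨T', Relation.ReflTransGen.trans hT'' hT, h1, h2, h3, h4⟩

end Pool.Agent.Lib.MP_9f84a9_co
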