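import Pool.Agent.Lib.MP_9f84a9_co.F.StmF1

set_option autoImplicit false

namespace Pool.Agent.Lib.MP_9f84a9_co

open Finset

private theorem F1_prune_top {N : ℕ} {X : Pt N → Prop} {A : Net N} (h : NX X A) : X A.top := by
  cases A with
  | leaf v => exact h.2 v (by simp [Net.leaves])
  | node z l r => exact h.1 z (by simp [Net.nodes])

private theorem F1_prune_l {N : ℕ} {X : Pt N → Prop} {z : Pt N} {l r : Net N}
    (h : NX X (Net.node z l r)) : X z ∧ NX X l ∧ NX X r := by
  refine ⟨h.1 z (by simp [Net.nodes]), ⟨?_, ?_⟩, ⟨?_, ?_⟩⟩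
  · intro x hx
    exact h.1 x (by simp [Net.nodes, hx])
  · intro x hx
    exact h.2 x (by simp [Net.leaves, hx])
  · intro x hx
    exact h.1 x (by simp [Net.nodes, hx])
  · intro x hx
    exact h.2 x (by simp [Net.leaves, hx])

private theorem F1_prune_main {N : ℕ} (X : Pt N → Prop) (d : Pt N → Pt N → ℝ) (hd : PM X d)
    (A : Net N) : NX X A → (∀ v, A ≠ Net.leaf v) → ∀ u ∈ A.leaves, ∃ (A' : Net N) (z : Pt N),
      (u :: A'.leaves).Perm A.leaves ∧
      (∀ x ∈ A'.nodes, x ∈ A.nodes) ∧ z ∈ A.nodes ∧
      (∀ B : Net N, ∃ B'' : Net N, B''.top = z ∧ Net.Eqv (A, B) (Net.leaf u, B'')) ∧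
      ∀ y, X y → d y A'.top + A'.len d + d z (vx u) ≤ d y A.top + A.len d := by
  induction A with
  | leaf v =>
    intro _ h
    exact absurd rfl (h v)
  | node z₀ l r ihl ihr =>
    intro hX _ u hu
    obtain ⟨hz, hl, hr⟩ := F1_prune_l hX
    rw [Net.leaves, List.mem_append] at hu
    rcases hu with hu | hu
    · cases l with
      | leaf u' =>
        have huu : u = u' := by simpa [Net.leaves] using hu
        subst huu
        refine ⟨r, z₀, ?_, ?_, ?_, ?_, ?_⟩
        · simp [Net.leaves]
        · intro x hx
          simp [Net.nodes, hx]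
        · simp [Net.nodes]
        · intro B
          exact ⟨Net.node z₀ r B, rfl, Relation.ReflTransGen.single (Net.Mv.lf _ _ _ _)⟩
        · intro y hy
          have h1 := hd.tri y z₀ r.top hy hz (F1_prune_top hr)
          have h2 : Net.len d (Net.node z₀ (Net.leaf u) r) =
            d z₀ (vx u) + d z₀ r.top + 0 + r.len d := rfl
          have h3 : (Net.node z₀ (Net.leaf u) r).top = z₀ := rfl
          rw [h2, h3]
          linarith
      | node z1 l1 r1 =>
        obtain ⟨l', z, h1, h2, h3, h4, h5⟩ := ihl hl (fun v => by simp) u hu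
        refine ⟨Net.node z₀ l' r, z, ?_, ?_, ?_, ?_, ?_⟩
        · show (u :: (l'.leaves ++ r.leaves)).Perm _
          exact List.Perm.append_right r.leaves h1
        · intro x hx
          rw [Net.nodes, List.mem_cons, List.mem_append] at hx ⊢
          rcases hx with hx | hx | hx
          · exact Or.inl hx
          · exact Or.inr (Or.inl (h2 x hx))
          · exact Or.inr (Or.inr hx)
        · rw [Net.nodes, List.mem_cons, List.mem_append]
          exact Or.inr (Or.inl h3)
        · intro B
          obtain ⟨B'', hB, hE⟩ := h4 (Net.node z₀ r B)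
          exact ⟨B'', hB, Relation.ReflTransGen.head (Net.Mv.lf _ _ _ _) hE⟩
        · intro y hy
          have e1 := h5 z₀ hz
          have e2 : Net.len d (Net.node z₀ l' r) =
            d z₀ l'.top + d z₀ r.top + l'.len d + r.len d := rfl
          have e3 : Net.len d (Net.node z₀ (Net.node z1 l1 r1) r) =
            d z₀ (Net.node z1 l1 r1).top + d z₀ r.top + (Net.node z1 l1 r1).len d + r.len d := rfl
          have e4 : (Net.node z₀ l' r).top = z₀ := rfl
          have e5 : (Net.node z₀ (Net.node z1 l1 r1) r).top = z₀ := rfl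
          rw [e2, e3, e4, e5]
          linarith
    · cases r with
      | leaf u' =>
        have huu : u = u' := by simpa [Net.leaves] using hu
        subst huu
        refine ⟨l, z₀, ?_, ?_, ?_, ?_, ?_⟩
        · exact (List.perm_append_comm (l₁ := [u]) (l₂ := l.leaves))
        · intro x hx
          simp [Net.nodes, hx]
        · simp [Net.nodes]
        · intro B
          exact ⟨Net.node z₀ l B, rfl, Relation.ReflTransGen.single (Net.Mv.rt _ _ _ _)⟩
        · intro y hy
          have h1 := hd.tri y z₀ l.top hy hz (F1_prune_top hl)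
          have h2 : Net.len d (Net.node z₀ l (Net.leaf u)) =
            d z₀ l.top + d z₀ (vx u) + l.len d + 0 := rfl
          have h3 : (Net.node z₀ l (Net.leaf u)).top = z₀ := rfl
          rw [h2, h3]
          linarith
      | node z1 l1 r1 =>
        obtain ⟨r', z, h1, h2, h3, h4, h5⟩ := ihr hr (fun v => by simp) u hu
        refine ⟨Net.node z₀ l r', z, ?_, ?_, ?_, ?_, ?_⟩
        · show (u :: (l.leaves ++ r'.leaves)).Perm _
          exact (List.perm_middle (l₁ := l.leaves) (l₂ := r'.leaves) (a := u)).symm.trans
            (List.Perm.append_left l.leaves h1)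
        · intro x hx
          rw [Net.nodes, List.mem_cons, List.mem_append] at hx ⊢
          rcases hx with hx | hx | hx
          · exact Or.inl hx
          · exact Or.inr (Or.inl hx)
          · exact Or.inr (Or.inr (h2 x hx))
        · rw [Net.nodes, List.mem_cons, List.mem_append]
          exact Or.inr (Or.inr h3)
        · intro B
          obtain ⟨B'', hB, hE⟩ := h4 (Net.node z₀ l B)
          exact ⟨B'', hB, Relation.ReflTransGen.head (Net.Mv.rt _ _ _ _) hE⟩
        · intro y hy
          have e1 := h5 z₀ hz
          have e2 : Net.len d (Net.node z₀ l r') =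
            d z₀ l.top + d z₀ r'.top + l.len d + r'.len d := rfl
          have e3 : Net.len d (Net.node z₀ l (Net.node z1 l1 r1)) =
            d z₀ l.top + d z₀ (Net.node z1 l1 r1).top + l.len d + (Net.node z1 l1 r1).len d := rfl
          have e4 : (Net.node z₀ l r').top = z₀ := rfl
          have e5 : (Net.node z₀ l (Net.node z1 l1 r1)).top = z₀ := rfl
          rw [e2, e3, e4, e5]
          linarith

theorem t_Fprune : S_Fprune := by
  intro N X d hd A hX hA u hu
  obtain ⟨A', z, h1, h2, h3, h4, h5⟩ := F1_prune_main X d hd A hX hA u hu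
  refine ⟨A', z, h1, ?_, h2, h3, h4, h5⟩
  have := h1.erase u
  rwa [List.erase_cons_head] at this

end Pool.Agent.Lib.MP_9f84a9_co
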