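import Pool.Agent.Lib.MP_9f84a9_co.F.StmF1

/-!
# MP_9f84a9_co, module F, [F1 tr]: transfer
-/

set_option autoImplicit false

namespace Pool.Agent.Lib.MP_9f84a9_co

open Finset

theorem t_Ftr (hpm : S_Fpm) (hmap : S_Fmap) (hrep : S_Frep) : S_Ftr := by
  intro N Cl P pre post q D' p' lab' F ν ht
  -- the new piece
  have hlv : (trp q D' p' lab' F ν).lv = q.lv.map ν := by
    show (Net.mp F ν q.T.1).leaves ++ (Net.mp F ν q.T.2).leaves = _
    rw [((hmap N F ν).1 q.T.1).1, ((hmap N F ν).1 q.T.2).1, ← List.map_append]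
    rfl
  have hnd : (trp q D' p' lab' F ν).nd = q.nd.map F := by
    show (Net.mp F ν q.T.1).nodes ++ (Net.mp F ν q.T.2).nodes = _
    rw [((hmap N F ν).1 q.T.1).2.1, ((hmap N F ν).1 q.T.2).2.1, ← List.map_append]
    rfl
  have hroot : (trp q D' p' lab' F ν).root = ν q.root := ((hmap N F ν).1 q.T.1).2.2
  have hrpl : q.ok Cl P → Rpl Cl P pre post q [trp q D' p' lab' F ν] := by
    intro hq
    refine ⟨?_, ?_, ?_, ?_⟩
    · intro q' hq'
      rw [List.mem_singleton] at hq'
      subst hq'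
      refine ⟨ht.dok, ht.wpos, ht.labs, ?_, ?_, ht.diam⟩
      · intro z hz
        rw [hnd] at hz
        obtain ⟨z', hz', rfl⟩ := List.mem_map.1 hz
        exact ht.inn z' (hq.nods z' hz')
      · intro v hv
        rw [hlv] at hv
        obtain ⟨v', hv', rfl⟩ := List.mem_map.1 hv
        exact (ht.lvs v' hv').1
    · intro q' hq'
      rw [List.mem_singleton] at hq'
      subst hq'
      exact ht.chd
    · intro u hu v hv
      refine Relation.ReflTransGen.single ⟨trp q D' p' lab' F ν, by simp, ?_, ?_⟩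
      · rw [hlv, List.map_map]
        refine List.mem_map.2 ⟨u, hu, ?_⟩
        exact (ht.lvs u hu).2.1
      · rw [hlv, List.map_map]
        refine List.mem_map.2 ⟨v, hv, ?_⟩
        exact (ht.lvs v hv).2.1
    · simp [hlv]
  have hL : q.ok Cl P → (trp q D' p' lab' F ν).L ≤ q.L := by
    intro hq
    obtain ⟨-, hX1, hX2, -⟩ := hpm.2.1 N Cl P q hq
    obtain ⟨hPM', hV', -⟩ := hpm.1 N D' p' ht.dok
    refine (hmap N F ν).2 (In q.D.K) (In D'.K) q.d (dK D'.K (ce p')) hPM' ht.inn ht.lip q.T hX1 hX2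
      ?_
    intro v hv
    obtain ⟨h1, -, h3⟩ := ht.lvs v hv
    exact ⟨hV' _ h1, h3⟩
  refine ⟨?_, ?_⟩
  · intro hD
    have hq : q.ok Cl P := hD.ok q (by simp)
    refine ⟨?_, hL hq, hlv, hnd, hroot⟩
    have h1 := hrep.2.1 N Cl P pre post q _ hD (hrpl hq)
    rw [List.append_assoc, List.singleton_append] at h1
    exact h1
  · intro hM
    have hq : q.ok Cl P := hM.mem.ok q (by simp)
    obtain ⟨-, h2⟩ := hrep.2.2 N Cl P pre post q _ hM (hrpl hq)
    have h3 := h2 (by simpa using hL hq)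
    simp only [List.map_cons, List.map_nil, List.sum_cons, List.sum_nil, add_zero] at h3
    unfold Piece.mu at h3
    rw [hlv, List.length_map] at h3
    have h4 : 2 ≤ q.lv.length := by
      have ha := hpm.2.2.2.2 N q.T.1
      have hb := hpm.2.2.2.2 N q.T.2
      have : q.lv.length = q.T.1.leaves.length + q.T.2.leaves.length := by
        simp [Piece.lv]
      omega
    have h5 : 0 < (q.lv.length - 1) ^ 2 := by
      have : 0 < q.lv.length - 1 := by omega
      positivity
    have h6 := Nat.le_of_mul_le_mul_left h3 h5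
    have h7 : 2 ≤ q.D.vl.length := by simp [Dsc.vl]
    have h8 : 2 ≤ D'.vl.length := by simp [Dsc.vl]
    have h9 : (trp q D' p' lab' F ν).D.vl.length = D'.vl.length := rfl
    omega

end Pool.Agent.Lib.MP_9f84a9_co
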